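import Pool.Agent.U916.GP.Cnt
import Pool.Agent.U916.GT.Avg
import Pool.Agent.Y159.TQ.Pre

/-!
# Collisions on average over the values of a polynomial
-/

set_option autoImplicit false

namespace Pool.Agent.U916.GP

open Polynomial Finset Pool.Agent.TH869.EVF Pool.Agent.Y159.QS Pool.Agent.U916.GT
open scoped Classical

/-- the number of the parameters with a collision of two given primes -/
theorem pair (f : ℤ[X]) (hsq : ∀ (c : ℚ) (g : ℚ[X]), f.map (Int.castRingHom ℚ) ≠ C c * g ^ 2)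
    (n : ℕ) (hfn : f.natDegree = n) (hn : 1 ≤ n)
    (c₁ : ℝ) (hc₁ : 0 < c₁) (hc₁' : c₁ ≤ 1)
    (l k : ℕ) (hl2 : 2 ≤ l) (hk : 1 ≤ k) (hkl : n * k ≤ l) (ε : ℝ) (hε : 0 < ε) :
    ∃ (C X0 : ℝ) (z0 : ℕ), 0 < C ∧ 1 ≤ X0 ∧
    ∀ X : ℝ, X0 ≤ X → ∀ z : ℕ, z0 ≤ z → 5 ≤ z → ((z : ℝ) ^ 2) ^ k ≤ X →
    X ^ (1 - ((n : ℝ) * k) ^ 2 / (4 * (l : ℝ) ^ 2)) ≤ ((z : ℝ) ^ 2 / 4) ^ k →
    ∀ p ∈ Qz z, ∀ q ∈ Qz z, q ≠ p → ∀ S : Finset ℤ, (∀ t ∈ S, X ≤ |(t : ℝ)| ∧ |(t : ℝ)| ≤ 2 * X ∧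
      c₁ * X ^ (n : ℝ) ≤ |((f.eval t : ℤ) : ℝ)|) →
    ((S.filter (fun t => QR p (f.eval t) ∧ QR q (f.eval t) ∧
      Coll l ((150 * (z : ℝ)) ^ l) (f.eval t) p q)).card : ℝ) ≤
      C * X ^ ε * ((z : ℝ) ^ 2) ^ k := by
  have hs1 : 0 < √c₁ := Real.sqrt_pos.2 hc₁
  have hs1' : √c₁ ≤ 1 := by rw [Real.sqrt_le_one]; exact hc₁'
  obtain ⟨C, X0, p0, hC0, hX01, hmain⟩ := cnt f hsq n hfn hn l k hl2 hk hkl (12 * 150 ^ (2 * l) * 4 ^ l / √c₁) (l + 1)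
    (by
      have h1 : (1 : ℝ) ≤ 150 ^ (2 * l) := one_le_pow₀ (by norm_num)
      have h2 : (1 : ℝ) ≤ 4 ^ l := one_le_pow₀ (by norm_num)
      rw [le_div_iff₀ hs1]
      nlinarith) (by positivity) ε hε
  refine ⟨8 * C, max X0 (4 * 150 ^ l / √c₁), 2 * p0 + 1, by positivity, le_max_of_le_left hX01, ?_⟩
  intro X hX z hz0 hz hzX hXz p hp q hq hqp S hS
  have hX1 : 1 ≤ X := hX01.trans ((le_max_left _ _).trans hX)
  have hX0 : 0 < X := by linarith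
  have hX2 : 4 * 150 ^ l / √c₁ ≤ X := (le_max_right _ _).trans hX
  obtain ⟨hpp, hp2, hpz⟩ := mem_Qz hp
  obtain ⟨hqp', hq2, hqz⟩ := mem_Qz hq
  have hz5 : (5 : ℝ) ≤ z := by exact_mod_cast hz
  have hpzR : (p : ℝ) ≤ z := by exact_mod_cast hpz
  have hqzR : (q : ℝ) ≤ z := by exact_mod_cast hqz
  have hpp0 : p0 < p := by
    have h1 : ((2 * p0 + 1 : ℕ) : ℝ) ≤ z := by exact_mod_cast hz0
    push_cast at h1
    have h2 : (p0 : ℝ) < p := by linarith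
    exact_mod_cast h2
  have hz0 : (0 : ℝ) < z := by linarith
  have hne2 : ∀ r : ℕ, (z : ℝ) / 2 ≤ r → r ≠ 2 := by
    rintro r hr rfl
    push_cast at hr
    linarith
  have hPle : ((p * q : ℕ) : ℝ) ≤ (z : ℝ) ^ 2 := by
    push_cast
    rw [sq]
    exact mul_le_mul hpzR hqzR (Nat.cast_nonneg _) hz0.le
  have hPge : (z : ℝ) ^ 2 / 4 ≤ ((p * q : ℕ) : ℝ) := by
    push_cast
    have := mul_le_mul hp2 hq2 (by positivity) (Nat.cast_nonneg _)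
    calc (z : ℝ) ^ 2 / 4 = (z : ℝ) / 2 * (z / 2) := by ring
      _ ≤ _ := this
  have hPk : ((p * q : ℕ) : ℝ) ^ k ≤ ((z : ℝ) ^ 2) ^ k := pow_le_pow_left₀ (Nat.cast_nonneg _) hPle k
  obtain ⟨Z, hZ⟩ : ∃ Z : ℝ, Z = (150 * (z : ℝ)) ^ l := ⟨_, rfl⟩
  have hZ0 : 0 < Z := by rw [hZ]; positivity
  rw [← hZ]
  have hzX' : (z : ℝ) ≤ X := by
    refine le_trans ?_ hzX
    rw [← pow_mul]
    exact le_self_pow₀ (by linarith) (by omega)
  have hZX : 4 * Z / √c₁ ≤ X ^ ((l : ℝ) + 1) := by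
    rw [Real.rpow_add_one hX0.ne', Real.rpow_natCast, hZ, mul_pow]
    calc 4 * (150 ^ l * (z : ℝ) ^ l) / √c₁ = (z : ℝ) ^ l * (4 * 150 ^ l / √c₁) := by ring
      _ ≤ X ^ l * X := mul_le_mul (pow_le_pow_left₀ hz0.le hzX' l) hX2 (by positivity) (by positivity)
  have hZX1 : 4 * Z ≤ X ^ ((l : ℝ) + 1) := by
    refine le_trans ?_ hZX
    rw [le_div_iff₀ hs1]
    nlinarith
  -- the lower bound for the values
  obtain ⟨X', hX'⟩ : ∃ X' : ℝ, X' = c₁ * X ^ (n : ℝ) := ⟨_, rfl⟩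
  have hXn : 1 ≤ X ^ (n : ℝ) := Real.one_le_rpow hX1 (Nat.cast_nonneg _)
  have hX'0 : 0 < X' := by rw [hX']; positivity
  rw [← hX'] at hS
  have hsX' : √X' = √c₁ * X ^ ((n : ℝ) / 2) := by
    rw [hX', Real.sqrt_mul hc₁.le, Real.sqrt_eq_rpow (X ^ (n : ℝ)), ← Real.rpow_mul hX0.le]
    congr 2
    ring
  have hXn2 : 1 ≤ X ^ ((n : ℝ) / 2) := Real.one_le_rpow hX1 (by positivity)
  have hsX'0 : 0 < √X' := Real.sqrt_pos.2 hX'0
  have hMZ : (((p * q) ^ l : ℕ) : ℝ) ≤ Z ^ 2 := by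
    rw [hZ]
    push_cast
    rw [← pow_mul, mul_comm l 2, pow_mul]
    apply pow_le_pow_left₀ (by positivity)
    have : (p : ℝ) * q ≤ z ^ 2 := by exact_mod_cast hPle
    nlinarith
  have hBB : 4 * Z * (3 * Z / √X') * X ^ ((n : ℝ) / 2) ≤
      12 * 150 ^ (2 * l) * 4 ^ l / √c₁ * ((p * q : ℕ) : ℝ) ^ l := by
    have e1 : 4 * Z * (3 * Z / √X') * X ^ ((n : ℝ) / 2) = 12 * Z ^ 2 / √c₁ := by
      rw [hsX']
      field_simp
      ring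
    rw [e1]
    have e2 : Z ^ 2 = 150 ^ (2 * l) * ((z : ℝ) ^ 2) ^ l := by
      rw [hZ, mul_pow, mul_pow, ← pow_mul, ← pow_mul, ← pow_mul, mul_comm l 2]
    have e3 : ((z : ℝ) ^ 2) ^ l ≤ 4 ^ l * ((p * q : ℕ) : ℝ) ^ l := by
      rw [← mul_pow]
      apply pow_le_pow_left₀ (by positivity)
      linarith
    rw [e2, div_mul_eq_mul_div]
    apply div_le_div_of_nonneg_right _ hs1.le
    have : (0 : ℝ) < 150 ^ (2 * l) := by positivity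
    nlinarith
  -- the cover
  obtain ⟨N4, hN4⟩ : ∃ N4 : Finset ℤ, N4 = {1, -1, 4, -4} := ⟨_, rfl⟩
  obtain ⟨Fn, hFn⟩ : ∃ Fn : ℤ × Bool → Finset ℤ, Fn = fun c => S.filter (fun t => QR p (f.eval t) ∧
      QR q (f.eval t) ∧
      (decide (0 ≤ t) = c.2) ∧ ∃ x y : ℤ, IsCoprime x y ∧ 1 ≤ y ∧
      x ^ 2 + (-f.eval t) * y ^ 2 = ((p * q : ℕ) : ℤ) ^ l * c.1 ∧ |(x : ℝ)| ≤ 4 * Z ∧
      |(y : ℝ)| ≤ 3 * Z / √X') := ⟨_, rfl⟩
  have hcov : S.filter (fun t => QR p (f.eval t) ∧ QR q (f.eval t) ∧ Coll l Z (f.eval t) p q) ⊆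
      (N4 ×ˢ (Finset.univ : Finset Bool)).biUnion Fn := by
    intro t ht
    rw [mem_filter] at ht
    obtain ⟨htS, h1, h2, h3⟩ := ht
    obtain ⟨N, hN, x, y, hxy⟩ := coll_rep hZ0.le hX'0 (hS t htS).2.2 hMZ h3
    rw [mem_biUnion]
    refine ⟨(N, decide (0 ≤ t)), ?_, ?_⟩
    · rw [mem_product, hN4]
      simp only [mem_insert, mem_singleton]
      exact ⟨hN, mem_univ _⟩
    · rw [hFn]
      simp only
      rw [mem_filter]
      exact ⟨htS, h1, h2, rfl, x, y, hxy⟩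
  have hone : ∀ c ∈ (N4 ×ˢ (Finset.univ : Finset Bool)), (Fn c).card ≤ ⌊C * X ^ ε * ((z : ℝ) ^ 2) ^ k⌋₊ := by
    intro c _
    apply Nat.le_floor
    have h1 := hmain X ((le_max_left _ _).trans hX) p q hpp hqp' hpp0 (Ne.symm hqp) (hne2 p hp2) (hne2 q hq2)
      (hPk.trans hzX) (hXz.trans (pow_le_pow_left₀ (by positivity) hPge k)) (4 * Z) (3 * Z / √X')
      (by positivity) (by positivity) hBB hZX1
      (by
        refine le_trans ?_ hZX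
        rw [div_le_div_iff₀ hsX'0 hs1, hsX']
        have : 3 * Z * √c₁ ≤ 4 * Z * √c₁ := by nlinarith [mul_pos hZ0 hs1]
        have h5 : 4 * Z * √c₁ ≤ 4 * Z * (√c₁ * X ^ ((n : ℝ) / 2)) := by
          apply mul_le_mul_of_nonneg_left _ (by positivity)
          nlinarith
        linarith) c.1 (Fn c) ?_ ?_
    · refine h1.trans ?_
      exact mul_le_mul_of_nonneg_left hPk (by positivity)
    · intro D hD D' hD'
      rw [hFn] at hD hD'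
      simp only at hD hD'
      rw [mem_filter] at hD hD'
      have e1 := hS D hD.1
      have e2 := hS D' hD'.1
      have e3 : decide (0 ≤ D) = decide (0 ≤ D') := by rw [hD.2.2.2.1, hD'.2.2.2.1]
      rw [decide_eq_decide] at e3
      by_cases h0 : 0 ≤ D
      · have h0' := e3.1 h0
        have f1 : (0 : ℝ) ≤ D := by exact_mod_cast h0
        have f2 : (0 : ℝ) ≤ D' := by exact_mod_cast h0'
        rw [abs_of_nonneg f1] at e1
        rw [abs_of_nonneg f2] at e2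
        rw [abs_le]
        constructor <;> linarith [e1.1, e1.2.1, e2.1, e2.2.1]
      · have h0' : ¬ 0 ≤ D' := fun h => h0 (e3.2 h)
        have f1 : (D : ℝ) < 0 := by exact_mod_cast (not_le.1 h0)
        have f2 : (D' : ℝ) < 0 := by exact_mod_cast (not_le.1 h0')
        rw [abs_of_neg f1] at e1
        rw [abs_of_neg f2] at e2
        rw [abs_le]
        constructor <;> linarith [e1.1, e1.2.1, e2.1, e2.2.1]
    · intro t ht
      rw [hFn] at ht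
      simp only at ht
      rw [mem_filter] at ht
      obtain ⟨-, g1, g2, -, x, y, g3⟩ := ht
      exact ⟨qr_ndvd hpp g1, qr_ndvd hqp' g2, x, y, g3⟩
  have h1 : (S.filter (fun t => QR p (f.eval t) ∧ QR q (f.eval t) ∧ Coll l Z (f.eval t) p q)).card ≤
      (4 * 2) * ⌊C * X ^ ε * ((z : ℝ) ^ 2) ^ k⌋₊ := by
    refine (card_le_card hcov).trans ?_
    refine (card_biUnion_le_card_mul _ _ _ hone).trans ?_
    apply Nat.mul_le_mul_right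
    rw [card_product, card_univ, Fintype.card_bool]
    apply Nat.mul_le_mul_right
    rw [hN4]
    exact card_le_four
  have h2 : ((S.filter (fun t => QR p (f.eval t) ∧ QR q (f.eval t) ∧ Coll l Z (f.eval t) p q)).card : ℝ) ≤
      (4 * 2) * (⌊C * X ^ ε * ((z : ℝ) ^ 2) ^ k⌋₊ : ℝ) := by exact_mod_cast h1
  have h3 : (⌊C * X ^ ε * ((z : ℝ) ^ 2) ^ k⌋₊ : ℝ) ≤ C * X ^ ε * ((z : ℝ) ^ 2) ^ k :=
    Nat.floor_le (by positivity)
  linarith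

/-- the number of collisions on average -/
theorem sumE (f : ℤ[X]) (hsq : ∀ (c : ℚ) (g : ℚ[X]), f.map (Int.castRingHom ℚ) ≠ C c * g ^ 2)
    (n : ℕ) (hfn : f.natDegree = n) (hn : 1 ≤ n)
    (c₁ : ℝ) (hc₁ : 0 < c₁) (hc₁' : c₁ ≤ 1)
    (l k : ℕ) (hl2 : 2 ≤ l) (hk : 1 ≤ k) (hkl : n * k ≤ l) (ε : ℝ) (hε : 0 < ε) :
    ∃ (C X0 : ℝ) (z0 : ℕ), 0 < C ∧ 1 ≤ X0 ∧
    ∀ X : ℝ, X0 ≤ X → ∀ z : ℕ, z0 ≤ z → 5 ≤ z → ((z : ℝ) ^ 2) ^ k ≤ X →
    X ^ (1 - ((n : ℝ) * k) ^ 2 / (4 * (l : ℝ) ^ 2)) ≤ ((z : ℝ) ^ 2 / 4) ^ k →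
    ∀ S : Finset ℤ, (∀ t ∈ S, X ≤ |(t : ℝ)| ∧ |(t : ℝ)| ≤ 2 * X ∧
      c₁ * X ^ (n : ℝ) ≤ |((f.eval t : ℤ) : ℝ)|) →
    ∑ t ∈ S, (EC l ((150 * (z : ℝ)) ^ l) (f.eval t) ((Qz z).filter (fun p => QR p (f.eval t))) : ℝ) ≤
      C * X ^ ε * ((z : ℝ) ^ 2) ^ k * ((Qz z).card : ℝ) ^ 2 := by
  obtain ⟨C, X0, z0, hC0, hX01, hmain⟩ := pair f hsq n hfn hn c₁ hc₁ hc₁' l k hl2 hk hkl ε hε
  refine ⟨C, X0, z0, hC0, hX01, ?_⟩
  intro X hX z hz0 hz hzX hXz S hS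
  obtain ⟨Z, hZ⟩ : ∃ Z : ℝ, Z = (150 * (z : ℝ)) ^ l := ⟨_, rfl⟩
  have hmain' := hmain X hX z hz0 hz hzX hXz
  rw [← hZ] at hmain' ⊢
  have e1 : ∀ t ∈ S, (EC l Z (f.eval t) ((Qz z).filter (fun p => QR p (f.eval t))) : ℝ) ≤
      ∑ x ∈ Qz z ×ˢ Qz z, if (x.2 ≠ x.1 ∧ QR x.1 (f.eval t) ∧ QR x.2 (f.eval t) ∧
        Coll l Z (f.eval t) x.1 x.2) then (1 : ℝ) else 0 := by
    intro t _
    have e2 : EC l Z (f.eval t) ((Qz z).filter (fun p => QR p (f.eval t))) ≤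
        ((Qz z ×ˢ Qz z).filter (fun x => x.2 ≠ x.1 ∧ QR x.1 (f.eval t) ∧ QR x.2 (f.eval t) ∧
          Coll l Z (f.eval t) x.1 x.2)).card := by
      unfold EC
      apply card_le_card
      intro x hx
      rw [mem_filter, mem_product, mem_filter, mem_filter] at hx
      rw [mem_filter, mem_product]
      exact ⟨⟨hx.1.1.1, hx.1.2.1⟩, hx.2.1, hx.1.1.2, hx.1.2.2, hx.2.2⟩
    rw [← Finset.sum_filter, sum_const, nsmul_eq_mul, mul_one]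
    exact_mod_cast e2
  refine (Finset.sum_le_sum e1).trans ?_
  rw [Finset.sum_comm]
  have hone : ∀ x ∈ Qz z ×ˢ Qz z, (∑ t ∈ S, if (x.2 ≠ x.1 ∧ QR x.1 (f.eval t) ∧ QR x.2 (f.eval t) ∧
      Coll l Z (f.eval t) x.1 x.2)
      then (1 : ℝ) else 0) ≤ C * X ^ ε * ((z : ℝ) ^ 2) ^ k := by
    intro x hx
    rw [mem_product] at hx
    rw [← Finset.sum_filter, sum_const, nsmul_eq_mul, mul_one]
    by_cases hne : x.2 ≠ x.1
    · refine le_trans ?_ (hmain' x.1 hx.1 x.2 hx.2 hne S hS)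
      have : (S.filter (fun t => x.2 ≠ x.1 ∧ QR x.1 (f.eval t) ∧ QR x.2 (f.eval t) ∧
          Coll l Z (f.eval t) x.1 x.2)).card ≤
          (S.filter (fun t => QR x.1 (f.eval t) ∧ QR x.2 (f.eval t) ∧
          Coll l Z (f.eval t) x.1 x.2)).card := by
        apply card_le_card
        intro D hD
        rw [mem_filter] at hD ⊢
        exact ⟨hD.1, hD.2.2⟩
      exact_mod_cast this
    · have : S.filter (fun t => x.2 ≠ x.1 ∧ QR x.1 (f.eval t) ∧ QR x.2 (f.eval t) ∧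
          Coll l Z (f.eval t) x.1 x.2) = ∅ := by
        apply filter_eq_empty_iff.2
        intro D _ h
        exact hne h.1
      rw [this, card_empty, Nat.cast_zero]
      have hX1 : 0 < X := by linarith
      positivity
  refine (Finset.sum_le_sum hone).trans (le_of_eq ?_)
  rw [sum_const, nsmul_eq_mul, card_product]
  push_cast
  ring

end Pool.Agent.U916.GP
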