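import Mathlib

/-!
# No polynomial identity
-/

set_option autoImplicit false

namespace Pool.Agent.U916.GP

open Polynomial

/-- the polynomial `f (t₀ + R X)` -/
noncomputable def aff (f : ℤ[X]) (t₀ R : ℤ) : ℤ[X] := f.comp (C R * X + C t₀)

lemma aff_eval (f : ℤ[X]) (t₀ R z : ℤ) : (aff f t₀ R).eval z = f.eval (t₀ + R * z) := by
  rw [aff, eval_comp, eval_add, eval_mul, eval_C, eval_X, eval_C, add_comm]

lemma aff_deg (f : ℤ[X]) (t₀ R : ℤ) (hR : R ≠ 0) : (aff f t₀ R).natDegree = f.natDegree := by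
  rw [aff, natDegree_comp, natDegree_add_C, natDegree_C_mul_X R hR, mul_one]

/-- the homogenised polynomial in the variable `t₀ + R X` -/
noncomputable def hmg (m : ℕ) (R t₀ : ℤ) (A : ℤ[X]) : ℤ[X] :=
  ∑ i ∈ Finset.range m, C (A.coeff i * R ^ (m - 1 - i)) * (X - C t₀) ^ i

lemma hmg_eval (m : ℕ) (R t₀ : ℤ) (A : ℤ[X]) (hA : A.natDegree < m) (σ : ℤ) :
    (hmg m R t₀ A).eval (t₀ + R * σ) = R ^ (m - 1) * A.eval σ := by
  rw [hmg, eval_finsetSum, eval_eq_sum_range' hA, Finset.mul_sum]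
  refine Finset.sum_congr rfl fun i hi => ?_
  rw [Finset.mem_range] at hi
  rw [eval_mul, eval_C, eval_pow, eval_sub, eval_X, eval_C]
  have e1 : m - 1 = (m - 1 - i) + i := by omega
  have e2 : t₀ + R * σ - t₀ = R * σ := by ring
  rw [e2]
  conv_rhs => rw [e1, pow_add]
  ring

/-- the descent -/
lemma desc (f : ℤ[X]) (p : ℕ) (hp : p.Prime)
    (hfp : ∀ (c : ZMod p) (h : (ZMod p)[X]), f.map (Int.castRingHom (ZMod p)) ≠ C c * h ^ 2) :
    ∀ (w : ℕ) (A B : ℤ[X]), C ((p : ℤ) ^ (2 * w)) ∣ B ^ 2 - f * A ^ 2 → C ((p : ℤ) ^ w) ∣ A := by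
  have : Fact p.Prime := ⟨hp⟩
  have hpZ : (p : ℤ) ≠ 0 := by exact_mod_cast hp.ne_zero
  have key : ∀ A : ℤ[X], A.map (Int.castRingHom (ZMod p)) = 0 → C (p : ℤ) ∣ A := by
    intro A hA
    rw [C_dvd_iff_dvd_coeff]
    intro i
    have h1 : (A.map (Int.castRingHom (ZMod p))).coeff i = 0 := by rw [hA, coeff_zero]
    rw [coeff_map, eq_intCast] at h1
    exact (ZMod.intCast_zmod_eq_zero_iff_dvd _ p).1 h1
  intro w
  induction w with
  | zero =>
    intro A B _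
    rw [pow_zero, C_1]
    exact one_dvd A
  | succ w ih =>
    intro A B h
    have hpm : C (p : ℤ) ∣ B ^ 2 - f * A ^ 2 := by
      refine Dvd.dvd.trans ?_ h
      rw [show 2 * (w + 1) = (2 * w + 1) + 1 by ring, pow_succ, C_mul]
      exact Dvd.intro_left _ rfl
    have hmod : (B.map (Int.castRingHom (ZMod p))) ^ 2 =
        f.map (Int.castRingHom (ZMod p)) * (A.map (Int.castRingHom (ZMod p))) ^ 2 := by
      obtain ⟨R, hR⟩ := hpm
      have e1 := congrArg (Polynomial.map (Int.castRingHom (ZMod p))) hR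
      rw [Polynomial.map_sub, Polynomial.map_mul, Polynomial.map_mul, Polynomial.map_pow,
        Polynomial.map_pow, map_C] at e1
      have e2 : (Int.castRingHom (ZMod p)) (p : ℤ) = 0 := by simp
      rw [e2, C_0, zero_mul, sub_eq_zero] at e1
      exact e1
    have hA0 : A.map (Int.castRingHom (ZMod p)) = 0 := by
      by_contra hne
      have h1 : (A.map (Int.castRingHom (ZMod p))) ^ 2 ∣ (B.map (Int.castRingHom (ZMod p))) ^ 2 := by
        rw [hmod]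
        exact Dvd.intro_left _ rfl
      have h2 : A.map (Int.castRingHom (ZMod p)) ∣ B.map (Int.castRingHom (ZMod p)) :=
        (IsIntegrallyClosed.pow_dvd_pow_iff two_ne_zero).1 h1
      obtain ⟨c, hc⟩ := h2
      apply hfp 1 c
      rw [hc, mul_pow, mul_comm] at hmod
      have h3 := mul_right_cancel₀ (pow_ne_zero 2 hne) hmod
      rw [← h3, C_1, one_mul]
    have hB0 : B.map (Int.castRingHom (ZMod p)) = 0 := by
      rw [hA0, zero_pow two_ne_zero, mul_zero] at hmod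
      exact (pow_eq_zero_iff two_ne_zero).1 hmod
    obtain ⟨A1, hA1⟩ := key A hA0
    obtain ⟨B1, hB1⟩ := key B hB0
    have h2 : C ((p : ℤ) ^ (2 * w)) ∣ B1 ^ 2 - f * A1 ^ 2 := by
      obtain ⟨R, hR⟩ := h
      refine ⟨R, ?_⟩
      have hC0 : (C ((p : ℤ) ^ 2) : ℤ[X]) ≠ 0 := by
        rw [Ne, C_eq_zero]
        exact pow_ne_zero 2 hpZ
      apply mul_left_cancel₀ hC0
      rw [hA1, hB1] at hR
      have e1 : C ((p : ℤ) ^ (2 * (w + 1))) = C ((p : ℤ) ^ 2) * C ((p : ℤ) ^ (2 * w)) := by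
        rw [← C_mul, ← pow_add]
        congr 2
        ring
      rw [e1] at hR
      rw [← mul_assoc, ← hR, C_pow]
      ring
    obtain ⟨A2, hA2⟩ := ih A1 B1 h2
    refine ⟨A2, ?_⟩
    rw [hA1, hA2, pow_succ, C_mul]
    ring

/-- no identity -/
lemma id_ne (f : ℤ[X]) (p : ℕ) (hp : p.Prime)
    (hfp : ∀ (c : ZMod p) (h : (ZMod p)[X]), f.map (Int.castRingHom (ZMod p)) ≠ C c * h ^ 2)
    (A B : ℤ[X]) (m : ℕ) (hA : A.natDegree < m) (hB : B.natDegree < m) (t₀ R : ℤ) (hR : R ≠ 0)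
    (g y M σ : ℤ) (hg : g ≠ 0) (hM : (p : ℤ) ^ 2 ∣ M) (hy : ¬ (p : ℤ) ∣ y)
    (hAy : A.eval σ = y * g) : B ^ 2 - (aff f t₀ R) * A ^ 2 - C (g ^ 2 * M) ≠ 0 := by
  intro h
  have hpI := Nat.prime_iff_prime_int.1 hp
  have hid : (hmg m R t₀ B) ^ 2 - f * (hmg m R t₀ A) ^ 2 - C ((R ^ (m - 1) * g) ^ 2 * M) = 0 := by
    apply Polynomial.eq_zero_of_infinite_isRoot
    have hinj : Function.Injective (fun z : ℤ => t₀ + R * z) := by
      intro a b hab
      simp only at hab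
      exact mul_left_cancel₀ hR (by linarith)
    refine (Set.infinite_range_of_injective hinj).mono ?_
    rintro _ ⟨z, rfl⟩
    simp only [Set.mem_ofPred_eq, IsRoot.def, eval_sub, eval_mul, eval_pow, eval_C]
    rw [hmg_eval m R t₀ A hA, hmg_eval m R t₀ B hB]
    have e1 := congrArg (Polynomial.eval z) h
    simp only [eval_sub, eval_mul, eval_pow, eval_C, eval_zero] at e1
    rw [aff_eval] at e1
    linear_combination (R ^ (m - 1)) ^ 2 * e1
  have hRg : R ^ (m - 1) * g ≠ 0 := mul_ne_zero (pow_ne_zero _ hR) hg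
  obtain ⟨w, u, hu, hwu⟩ : ∃ (w : ℕ) (u : ℤ), ¬ (p : ℤ) ∣ u ∧ R ^ (m - 1) * g = (p : ℤ) ^ w * u := by
    have hfin : FiniteMultiplicity (p : ℤ) (R ^ (m - 1) * g) := by
      rw [Int.finiteMultiplicity_iff]
      refine ⟨?_, hRg⟩
      rw [Int.natAbs_natCast]
      exact hp.ne_one
    obtain ⟨c, hc1, hc2⟩ := hfin.exists_eq_pow_mul_and_not_dvd
    exact ⟨_, c, hc2, hc1⟩
  have hdvd : C ((p : ℤ) ^ (2 * (w + 1))) ∣ (hmg m R t₀ B) ^ 2 - f * (hmg m R t₀ A) ^ 2 := by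
    have e1 : (hmg m R t₀ B) ^ 2 - f * (hmg m R t₀ A) ^ 2 = C ((R ^ (m - 1) * g) ^ 2 * M) := by
      linear_combination hid
    rw [e1, hwu]
    obtain ⟨M', hM'⟩ := hM
    refine ⟨C (u ^ 2 * M'), ?_⟩
    rw [hM', ← C_mul]
    congr 1
    ring
  obtain ⟨A', hA'⟩ := desc f p hp hfp (w + 1) _ _ hdvd
  have h2 := hmg_eval m R t₀ A hA σ
  rw [hA', eval_mul, eval_C, hAy] at h2
  have h3 : (p : ℤ) ^ w * (p * A'.eval (t₀ + R * σ)) = (p : ℤ) ^ w * (u * y) := by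
    have : R ^ (m - 1) * (y * g) = (p : ℤ) ^ w * (u * y) := by
      linear_combination y * hwu
    rw [← this, ← h2, pow_succ]
    ring
  have hpw : (p : ℤ) ^ w ≠ 0 := pow_ne_zero _ hpI.ne_zero
  have h4 := mul_left_cancel₀ hpw h3
  have h5 : (p : ℤ) ∣ u * y := ⟨_, h4.symm⟩
  rcases hpI.dvd_or_dvd h5 with h6 | h6
  · exact hu h6
  · exact hy h6

end Pool.Agent.U916.GP
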