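import Pool.Agent.U916.GP.Sup

/-!
# The moments over a dyadic window of parameters
-/

set_option autoImplicit false

namespace Pool.Agent.U916.GP

open Polynomial NumberField Finset Filter Pool.Agent.TH869.EVF Pool.Agent.Y159.QS Pool.Agent.U916.GT
open scoped Classical

/-- **the moments over a dyadic window** -/
theorem dyad (f : ℤ[X]) (hsq : ∀ (c : ℚ) (g : ℚ[X]), f.map (Int.castRingHom ℚ) ≠ C c * g ^ 2)
    (n : ℕ) (hfn : f.natDegree = n) (hn : 1 ≤ n)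
    (l k r : ℕ) (hl2 : 2 ≤ l) (hr : 1 ≤ r) (hk : 1 ≤ k) (hkl : n * k ≤ l) (hrk : 3 * r ≤ 2 * k) (ε : ℝ)
    (hε : 0 < ε) : ∃ C : ℝ, 0 < C ∧ ∀ X : ℝ, 1 ≤ X →
    ∀ (S : Finset ℤ) (K : ℤ → Type) [∀ t, Field (K t)] [∀ t, NumberField (K t)],
    (∀ t ∈ S, (X ≤ |(t : ℝ)| ∧ |(t : ℝ)| ≤ 2 * X) ∧ Module.finrank ℚ (K t) = 2 ∧
      NumberField.discr (K t) = f.eval t) →
    ∑ t ∈ S, (Nat.card {c : ClassGroup (𝓞 (K t)) // c ^ l = 1} : ℝ) ^ r ≤
      C * X ^ (1 + n * r / 2 - min (((n : ℝ) * k) ^ 2 / (4 * (l : ℝ) ^ 2))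
        (r * (1 - ((n : ℝ) * k) ^ 2 / (4 * (l : ℝ) ^ 2)) / (2 * k)) + ε : ℝ) := by
  have hl : 1 ≤ l := le_trans (Nat.mul_pos hn hk) hkl
  have hn0 : (0 : ℝ) < n := by exact_mod_cast hn
  have hk0 : (0 : ℝ) < k := by exact_mod_cast hk
  have hk1 : (1 : ℝ) ≤ k := by exact_mod_cast hk
  have hr1 : (1 : ℝ) ≤ r := by exact_mod_cast hr
  have hl0 : (0 : ℝ) < l := by exact_mod_cast hl
  have hklR : (n : ℝ) * k ≤ l := by exact_mod_cast hkl
  have hf0 : f ≠ 0 := by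
    rintro rfl
    rw [natDegree_zero] at hfn
    omega
  obtain ⟨δ, hδ⟩ : ∃ δ : ℝ, δ = ((n : ℝ) * k) ^ 2 / (4 * (l : ℝ) ^ 2) := ⟨_, rfl⟩
  have hδ4 : δ ≤ 1 / 4 := by
    rw [hδ, div_le_div_iff₀ (by positivity) (by norm_num)]
    have : ((n : ℝ) * k) ^ 2 ≤ (l : ℝ) ^ 2 := pow_le_pow_left₀ (by positivity) hklR 2
    linarith
  have hδ0 : 0 < δ := by rw [hδ]; positivity
  obtain ⟨s0, hs0⟩ : ∃ s0 : ℝ, s0 = r * (1 - δ) / (2 * k) := ⟨_, rfl⟩
  obtain ⟨s, hs⟩ : ∃ s : ℝ, s = min δ s0 := ⟨_, rfl⟩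
  have hsδ : s ≤ δ := by rw [hs]; exact min_le_left _ _
  have hss0 : s ≤ s0 := by rw [hs]; exact min_le_right _ _
  have hsp : 0 ≤ s := by
    rw [hs, hs0]
    apply le_min hδ0.le
    have : 0 ≤ 1 - δ := by linarith
    positivity
  obtain ⟨κ, hκ⟩ : ∃ κ : ℝ, κ = min (min (1 / 8) (δ / 2)) (ε / 8) := ⟨_, rfl⟩
  have hκ0 : 0 < κ := by rw [hκ]; exact lt_min (lt_min (by norm_num) (by positivity)) (by positivity)
  have hκ8 : κ ≤ 1 / 8 := by rw [hκ]; exact (min_le_left _ _).trans (min_le_left _ _)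
  have hκδ : 2 * κ ≤ δ := by
    have : κ ≤ δ / 2 := by rw [hκ]; exact (min_le_left _ _).trans (min_le_right _ _)
    linarith
  have hκε : κ ≤ ε / 8 := by rw [hκ]; exact min_le_right _ _
  obtain ⟨ε1, hε1⟩ : ∃ ε1 : ℝ, ε1 = min (ε / (4 * (r * n))) (1 / 2) := ⟨_, rfl⟩
  have hε10 : 0 < ε1 := by rw [hε1]; exact lt_min (by positivity) (by norm_num)
  have hε1h : ε1 ≤ 1 / 2 := by rw [hε1]; exact min_le_right _ _
  have hrε1 : r * (n * ε1) ≤ ε / 4 := by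
    have h1 : ε1 ≤ ε / (4 * (r * n)) := by rw [hε1]; exact min_le_left _ _
    rw [le_div_iff₀ (by positivity)] at h1
    linarith
  obtain ⟨A, hA1, hAlow, hAup⟩ := poly_bounds f hf0
  rw [hfn] at hAlow hAup
  obtain ⟨G, hG⟩ : ∃ G : ℝ, G = A * 2 ^ n := ⟨_, rfl⟩
  have hG1 : 1 ≤ G := by
    rw [hG]
    have : (1 : ℝ) ≤ 2 ^ n := one_le_pow₀ (by norm_num)
    nlinarith
  have hG0 : 0 < G := by linarith
  obtain ⟨C0, hC00, hC0⟩ := single ε1 hε10
  obtain ⟨C3, x3, z0, hC30, hx31, hC3⟩ := sumE f hsq n hfn hn (1 / 2) (by norm_num) (by norm_num)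
    l k hl2 hk hkl (ε / 4) (by positivity)
  obtain ⟨C4, x4, hC40, hx41, hC4⟩ := range_choice f hsq n G hG1 z0 l k r hr hk hn hkl hrk κ hκ0 hκ8
    (by rw [← hδ]; exact hκδ)
  rw [← hδ] at hC3 hC4 ⊢
  rw [← hs0] at hC4 ⊢
  rw [← hs]
  obtain ⟨X1, hX1⟩ : ∃ X1 : ℝ, X1 = max (max x3 x4) (2 * A) := ⟨_, rfl⟩
  have hX11 : 1 ≤ X1 := by rw [hX1]; exact le_max_of_le_left (le_max_of_le_left hx31)
  obtain ⟨Csm, hCsm⟩ : ∃ Csm : ℝ, Csm = 4 * X1 * (C0 * G * X1 ^ (n / 2 + n * ε1)) ^ r := ⟨_, rfl⟩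
  have hCsm0 : 0 < Csm := by rw [hCsm]; positivity
  obtain ⟨Cb, hCb⟩ : ∃ Cb : ℝ, Cb = (1024 * C0 * G) ^ r * 2 ^ (r - 1) * (4 + C3 + 2 * C4) := ⟨_, rfl⟩
  have hCb0 : 0 < Cb := by rw [hCb]; positivity
  refine ⟨Csm + Cb, by positivity, ?_⟩
  intro X hX S K _ _ hS
  have hX0 : 0 < X := by linarith
  obtain ⟨θ, hθ⟩ : ∃ θ : ℝ, θ = 1 + n * r / 2 - s + ε := ⟨_, rfl⟩
  rw [← hθ]
  have hθ0 : 0 ≤ θ := by
    rw [hθ]
    have : 0 ≤ (n : ℝ) * r / 2 := by positivity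
    linarith
  have hXθ : 1 ≤ X ^ θ := Real.one_le_rpow hX hθ0
  obtain ⟨B, hB⟩ : ∃ B : ℝ, B = C0 * (G * X ^ (n / 2 + n * ε1)) := ⟨_, rfl⟩
  have hB0 : 0 < B := by rw [hB]; positivity
  have hup : ∀ t ∈ S, |((f.eval t : ℤ) : ℝ)| ≤ G * X ^ (n : ℝ) := by
    intro t ht
    have h1 := (hS t ht).1
    refine (hAup t (hX.trans h1.1)).trans ?_
    rw [hG, Real.rpow_natCast, mul_assoc, ← mul_pow]
    have := h1.2
    gcongr
  have hDB : ∀ t ∈ S, C0 * |((f.eval t : ℤ) : ℝ)| ^ (1 / 2 + ε1) ≤ B := by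
    intro t ht
    have h2 : |((f.eval t : ℤ) : ℝ)| ^ (1 / 2 + ε1) ≤ G * X ^ (n / 2 + n * ε1) := by
      calc |((f.eval t : ℤ) : ℝ)| ^ (1 / 2 + ε1) ≤ (G * X ^ (n : ℝ)) ^ (1 / 2 + ε1) :=
            Real.rpow_le_rpow (abs_nonneg _) (hup t ht) (by positivity)
        _ = G ^ (1 / 2 + ε1) * (X ^ (n : ℝ)) ^ (1 / 2 + ε1) := Real.mul_rpow (by positivity) (by positivity)
        _ = G ^ (1 / 2 + ε1) * X ^ (n / 2 + n * ε1) := by
            rw [← Real.rpow_mul hX0.le]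
            congr 2
            ring
        _ ≤ G ^ (1 : ℝ) * X ^ (n / 2 + n * ε1) := by
            gcongr
            linarith
        _ = _ := by rw [Real.rpow_one]
    rw [hB]
    gcongr
  obtain ⟨T, hT⟩ : ∃ T : ℤ → ℝ, T = fun t => (Nat.card {c : ClassGroup (𝓞 (K t)) // c ^ l = 1} : ℝ) :=
    ⟨_, rfl⟩
  have hTD : ∀ t, (Nat.card {c : ClassGroup (𝓞 (K t)) // c ^ l = 1} : ℝ) = T t := by
    intro t; rw [hT]
  have hT0 : ∀ t, 0 ≤ T t := by
    intro t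
    rw [← hTD]
    exact Nat.cast_nonneg _
  have hTB : ∀ t ∈ S, T t ≤ B := by
    intro t ht
    have h1 := (hC0 l hl (K t) (hS t ht).2.1 0 ∅ (by simp)).1
    rw [(hS t ht).2.2, hTD] at h1
    exact h1.trans (hDB t ht)
  have hgoal : ∑ t ∈ S, (Nat.card {c : ClassGroup (𝓞 (K t)) // c ^ l = 1} : ℝ) ^ r = ∑ t ∈ S, T t ^ r :=
    Finset.sum_congr rfl fun t _ => by rw [hTD]
  rw [hgoal]
  have hScard : (S.card : ℝ) ≤ 4 * X := card_window hX S (fun t ht => ⟨(hS t ht).1.1, by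
    linarith [(hS t ht).1.2]⟩)
  rcases lt_or_ge X X1 with hXX | hXX
  · -- small `X`
    have h1 : ∑ t ∈ S, T t ^ r ≤ 4 * X * B ^ r := by
      calc ∑ t ∈ S, T t ^ r ≤ ∑ t ∈ S, B ^ r :=
            Finset.sum_le_sum fun t ht => pow_le_pow_left₀ (hT0 t) (hTB t ht) r
        _ = S.card * B ^ r := by rw [sum_const, nsmul_eq_mul]
        _ ≤ _ := by gcongr
    have h2 : 4 * X * B ^ r ≤ Csm := by
      rw [hCsm]
      apply mul_le_mul (by linarith) _ (by positivity) (by positivity)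
      apply pow_le_pow_left₀ hB0.le
      rw [hB]
      have : X ^ (n / 2 + n * ε1) ≤ X1 ^ (n / 2 + n * ε1) := Real.rpow_le_rpow hX0.le hXX.le (by positivity)
      calc C0 * (G * X ^ (n / 2 + n * ε1)) = C0 * G * X ^ (n / 2 + n * ε1) := by ring
        _ ≤ _ := by gcongr
    calc ∑ t ∈ S, T t ^ r ≤ Csm := h1.trans h2
      _ ≤ (Csm + Cb) * 1 := by linarith
      _ ≤ (Csm + Cb) * X ^ θ := by gcongr
  · -- large `X`
    have hXx3 : x3 ≤ X := by rw [hX1] at hXX; exact ((le_max_left _ _).trans (le_max_left _ _)).trans hXX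
    have hXx4 : x4 ≤ X := by rw [hX1] at hXX; exact ((le_max_right _ _).trans (le_max_left _ _)).trans hXX
    have hXA : 2 * A ≤ X := by rw [hX1] at hXX; exact (le_max_right _ _).trans hXX
    obtain ⟨z, hz0, hz5, hzB, hzA, hzC, hN0p, hN0s, hbad⟩ := hC4 X hXx4
    obtain ⟨N0, hN0⟩ : ∃ N0 : ℝ, N0 = ((Qz z).card : ℝ) := ⟨_, rfl⟩
    have hEC := hC3 X hXx3 z hz0 hz5 hzB hzC S (fun t ht => ⟨(hS t ht).1.1, (hS t ht).1.2, by
      have h1 := hAlow t (hXA.trans (hS t ht).1.1)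
      have h2 : X ^ (n : ℝ) ≤ |(t : ℝ)| ^ n := by
        rw [Real.rpow_natCast]
        have := (hS t ht).1.1
        gcongr
      linarith⟩)
    have hbad' := hbad S (fun t ht => ⟨(hS t ht).1, by
      rw [← (hS t ht).2.2]
      exact NumberField.discr_ne_zero _, hup t ht⟩)
    obtain ⟨Z, hZ⟩ : ∃ Z : ℝ, Z = (150 * (z : ℝ)) ^ l := ⟨_, rfl⟩
    rw [← hN0] at hN0p hN0s hEC
    rw [← hZ] at hEC
    have hXs0 : X ^ (-s0) ≤ X ^ (-s) := Real.rpow_le_rpow_of_exponent_le hX (by linarith)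
    replace hN0s := hN0s.trans hXs0
    replace hbad' : _ ≤ C4 * (X * X ^ (-s) + X ^ (1 - δ)) := hbad'.trans (by gcongr)
    obtain ⟨E, hE⟩ : ∃ E : ℤ → ℝ, E = fun t => (EC l Z (f.eval t)
      ((Qz z).filter (fun p => QR p (f.eval t))) : ℝ) := ⟨_, rfl⟩
    obtain ⟨W, hW⟩ : ∃ W : ℝ, W = (1024 * B) ^ r * 2 ^ (r - 1) := ⟨_, rfl⟩
    have hW0 : 0 < W := by rw [hW]; positivity
    obtain ⟨bad, hbadd⟩ : ∃ bad : Finset ℤ, bad = S.filter (fun t =>
      (((Qz z).filter (fun p => QR p (f.eval t))).card : ℝ) < (Qz z).card / 8) := ⟨_, rfl⟩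
    rw [← hbadd] at hbad'
    have hE0 : ∀ t, 0 ≤ E t := by intro t; rw [hE]; exact Nat.cast_nonneg _
    have hpt : ∀ t ∈ S, T t ^ r ≤ W * ((1 / N0) ^ r + E t / N0 ^ 2 + if t ∈ bad then 1 else 0) := by
      intro t ht
      have hE0' : (0 : ℝ) ≤ E t / N0 ^ 2 := div_nonneg (hE0 t) (by positivity)
      by_cases hDb : t ∈ bad
      · rw [if_pos hDb]
        have h1 : T t ^ r ≤ B ^ r := pow_le_pow_left₀ (hT0 t) (hTB t ht) r
        have h2 : B ^ r ≤ W := by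
          have h3 : (1 : ℝ) ≤ 1024 ^ r := one_le_pow₀ (by norm_num)
          have h4 : (1 : ℝ) ≤ 2 ^ (r - 1) := one_le_pow₀ (by norm_num)
          calc B ^ r = 1 * B ^ r * 1 := by ring
            _ ≤ 1024 ^ r * B ^ r * 2 ^ (r - 1) := by gcongr
            _ = W := by rw [hW, mul_pow 1024 B r]
        have h5 : 0 ≤ (1 / N0) ^ r := by positivity
        nlinarith
      · rw [if_neg hDb, add_zero]
        have hgood : N0 / 8 ≤ (((Qz z).filter (fun p => QR p (f.eval t))).card : ℝ) := by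
          by_contra hcon
          rw [not_le] at hcon
          rw [hN0] at hcon
          exact hDb (by rw [hbadd, mem_filter]; exact ⟨ht, hcon⟩)
        obtain ⟨P, hP⟩ : ∃ P : Finset ℕ, P = (Qz z).filter (fun p => QR p (f.eval t)) := ⟨_, rfl⟩
        have hPQ : P ⊆ Qz z := by rw [hP]; exact filter_subset _ _
        have hED : E t = (EC l Z (f.eval t) P : ℝ) := by rw [hE, hP]
        rw [← hP] at hgood
        have hPle : (P.card : ℝ) ≤ N0 := by rw [hN0]; exact_mod_cast card_le_card hPQ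
        have h6 := (hC0 l hl (K t) (hS t ht).2.1 z P (by
          intro p hp
          rw [hP, mem_filter] at hp
          obtain ⟨hpQ, hqr⟩ := hp
          obtain ⟨hpp, -, hpz⟩ := mem_Qz hpQ
          rw [(hS t ht).2.2]
          refine ⟨hpp, by exact_mod_cast hpz, ?_, hqr⟩
          intro hpD
          exact qr_ndvd hpp hqr (Int.natCast_dvd.2 hpD))).2
        rw [(hS t ht).2.2, hTD, ← hZ, ← hED] at h6
        have h7 : T t * (P.card : ℝ) ^ 2 ≤ B * (2 * P.card + 4 * E t) := by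
          refine h6.trans ?_
          apply mul_le_mul_of_nonneg_right (hDB t ht)
          have := hE0 t
          positivity
        have hN16 : N0 / 16 ≤ (P.card : ℝ) := by linarith
        rw [hW]
        refine good_bound r hr (hT0 t) hB0.le hN0p hN16 (hE0 t) ?_ h7
        rw [hED]
        have h8 : (EC l Z (f.eval t) P : ℝ) ≤ (P.card : ℝ) ^ 2 := by
          exact_mod_cast (EC_le (l := l) (Z := Z) (D := f.eval t) (P := P))
        refine h8.trans ?_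
        gcongr
    -- the three sums
    obtain ⟨V, hV⟩ : ∃ V : ℝ, V = X * X ^ (-s) := ⟨_, rfl⟩
    have hV0 : 0 < V := by rw [hV]; positivity
    have hVs : X ^ (1 - s) = V := by
      rw [hV, sub_eq_add_neg, Real.rpow_add hX0, Real.rpow_one]
    have hVδ : X ^ (1 - δ) ≤ V := by
      rw [← hVs]
      exact Real.rpow_le_rpow_of_exponent_le hX (by linarith)
    obtain ⟨F, hF⟩ : ∃ F : ℝ, F = X ^ (ε / 4 + 2 * κ) := ⟨_, rfl⟩
    have hF1 : 1 ≤ F := by rw [hF]; exact Real.one_le_rpow hX (by positivity)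
    have hs1 : (S.card : ℝ) * (1 / N0) ^ r ≤ 4 * (V * F) := by
      calc (S.card : ℝ) * (1 / N0) ^ r ≤ 4 * X * X ^ (-s) := by gcongr
        _ = 4 * V := by rw [hV]; ring
        _ ≤ 4 * (V * F) := by nlinarith
    have hs2 : ∑ t ∈ S, E t / N0 ^ 2 ≤ C3 * (V * F) := by
      rw [← Finset.sum_div, div_le_iff₀ (by positivity)]
      have e1 : ∑ t ∈ S, E t ≤ C3 * X ^ (ε / 4) * ((z : ℝ) ^ 2) ^ k * N0 ^ 2 := by
        rw [hE]; exact hEC
      refine e1.trans ?_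
      have e2 : X ^ (ε / 4) * ((z : ℝ) ^ 2) ^ k ≤ V * F := by
        calc X ^ (ε / 4) * ((z : ℝ) ^ 2) ^ k ≤ X ^ (ε / 4) * X ^ (1 - δ + 2 * κ) := by gcongr
          _ = X ^ (1 - δ) * F := by
              rw [hF, ← Real.rpow_add hX0, ← Real.rpow_add hX0]
              congr 1
              ring
          _ ≤ V * F := by gcongr
      calc C3 * X ^ (ε / 4) * ((z : ℝ) ^ 2) ^ k * N0 ^ 2 =
          C3 * (X ^ (ε / 4) * ((z : ℝ) ^ 2) ^ k) * N0 ^ 2 := by ring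
        _ ≤ C3 * (V * F) * N0 ^ 2 := by gcongr
    have hs3 : (bad.card : ℝ) ≤ 2 * C4 * (V * F) := by
      refine hbad'.trans ?_
      rw [← hV]
      calc C4 * (V + X ^ (1 - δ)) ≤ C4 * (V + V) := by gcongr
        _ = 2 * C4 * V := by ring
        _ ≤ 2 * C4 * (V * F) := by
            apply mul_le_mul_of_nonneg_left _ (by positivity)
            nlinarith
    have hfin : ∑ t ∈ S, T t ^ r ≤ W * ((4 + C3 + 2 * C4) * (V * F)) := by
      calc ∑ t ∈ S, T t ^ r ≤ ∑ t ∈ S, W * ((1 / N0) ^ r + E t / N0 ^ 2 +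
            if t ∈ bad then 1 else 0) := Finset.sum_le_sum hpt
        _ = W * ((S.card : ℝ) * (1 / N0) ^ r + ∑ t ∈ S, E t / N0 ^ 2 + bad.card) := by
            rw [← Finset.mul_sum, Finset.sum_add_distrib, Finset.sum_add_distrib, sum_const,
              nsmul_eq_mul]
            congr 2
            rw [← Finset.sum_filter, sum_const, nsmul_eq_mul, mul_one]
            congr 2
            ext t
            rw [mem_filter, hbadd, mem_filter]
            tauto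
        _ ≤ W * (4 * (V * F) + C3 * (V * F) + 2 * C4 * (V * F)) := by gcongr
        _ = _ := by ring
    have hWle : W ≤ (1024 * C0 * G) ^ r * 2 ^ (r - 1) * X ^ ((n : ℝ) * r / 2 + ε / 4) := by
      have h1 : (1024 * B) ^ r = (1024 * C0 * G) ^ r * (X ^ (n / 2 + n * ε1)) ^ r := by
        rw [hB, ← mul_pow]; congr 1; ring
      have h2 : (X ^ (n / 2 + n * ε1)) ^ r ≤ X ^ ((n : ℝ) * r / 2 + ε / 4) := by
        rw [← Real.rpow_natCast, ← Real.rpow_mul hX0.le]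
        apply Real.rpow_le_rpow_of_exponent_le hX
        linarith
      rw [hW, h1]
      calc (1024 * C0 * G) ^ r * (X ^ (n / 2 + n * ε1)) ^ r * 2 ^ (r - 1)
          ≤ (1024 * C0 * G) ^ r * X ^ ((n : ℝ) * r / 2 + ε / 4) * 2 ^ (r - 1) := by gcongr
        _ = _ := by ring
    refine hfin.trans ?_
    have hVF : X ^ ((n : ℝ) * r / 2 + ε / 4) * (V * F) ≤ X ^ θ := by
      rw [← hVs, hF, ← Real.rpow_add hX0, ← Real.rpow_add hX0]
      apply Real.rpow_le_rpow_of_exponent_le hX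
      rw [hθ]
      linarith
    calc W * ((4 + C3 + 2 * C4) * (V * F))
        ≤ ((1024 * C0 * G) ^ r * 2 ^ (r - 1) * X ^ ((n : ℝ) * r / 2 + ε / 4)) *
            ((4 + C3 + 2 * C4) * (V * F)) := by gcongr
      _ = Cb * (X ^ ((n : ℝ) * r / 2 + ε / 4) * (V * F)) := by rw [hCb]; ring
      _ ≤ Cb * X ^ θ := by gcongr
      _ ≤ (Csm + Cb) * X ^ θ := by
          apply mul_le_mul_of_nonneg_right _ (by positivity)
          linarith

end Pool.Agent.U916.GP
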