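import Pool.Agent.U916.GP.Dyad
import Pool.Agent.U916.GT.Fin

/-!
# All parameters
-/

set_option autoImplicit false

namespace Pool.Agent.U916.GP

open Polynomial NumberField Finset Pool.Agent.Y159.QS Pool.Agent.U916.GT
open scoped Classical

/-- all parameters -/
theorem full (f : ℤ[X]) (hsq : ∀ (c : ℚ) (g : ℚ[X]), f.map (Int.castRingHom ℚ) ≠ C c * g ^ 2)
    (n : ℕ) (hfn : f.natDegree = n) (hn : 1 ≤ n)
    (l k r : ℕ) (hl2 : 2 ≤ l) (hr : 1 ≤ r) (hk : 1 ≤ k) (hkl : n * k ≤ l) (hrk : 3 * r ≤ 2 * k) (ε : ℝ)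
    (hε : 0 < ε) : ∃ C : ℝ, 0 < C ∧ ∀ X : ℝ, 1 ≤ X →
    ∀ (S : Finset ℤ) (K : ℤ → Type) [∀ t, Field (K t)] [∀ t, NumberField (K t)],
    (∀ t ∈ S, |(t : ℝ)| ≤ X ∧ Module.finrank ℚ (K t) = 2 ∧ NumberField.discr (K t) = f.eval t) →
    ∑ t ∈ S, (Nat.card {c : ClassGroup (𝓞 (K t)) // c ^ l = 1} : ℝ) ^ r ≤
      C * X ^ (1 + n * r / 2 - min (((n : ℝ) * k) ^ 2 / (4 * (l : ℝ) ^ 2))
        (r * (1 - ((n : ℝ) * k) ^ 2 / (4 * (l : ℝ) ^ 2)) / (2 * k)) + ε : ℝ) := by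
  obtain ⟨C, hC0, hC⟩ := dyad f hsq n hfn hn l k r hl2 hr hk hkl hrk ε hε
  obtain ⟨C1, hC10, hC1⟩ := single 1 one_pos
  obtain ⟨U, hU⟩ : ∃ U : ℝ, U = C1 * |((f.eval 0 : ℤ) : ℝ)| ^ ((1 : ℝ) / 2 + 1) := ⟨_, rfl⟩
  have hU0 : 0 ≤ U := by rw [hU]; positivity
  refine ⟨U ^ r + 2 * C, by positivity, ?_⟩
  intro X hX S K _ _ hS
  have hr1 : (1 : ℝ) ≤ r := by exact_mod_cast hr
  have hn1 : (1 : ℝ) ≤ n := by exact_mod_cast hn
  have hl : 1 ≤ l := le_trans (Nat.mul_pos hn hk) hkl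
  have hl0 : (0 : ℝ) < l := by exact_mod_cast hl
  have hklR : (n : ℝ) * k ≤ l := by exact_mod_cast hkl
  obtain ⟨θ, hθ⟩ : ∃ θ : ℝ, θ = 1 + n * r / 2 - min (((n : ℝ) * k) ^ 2 / (4 * (l : ℝ) ^ 2))
        (r * (1 - ((n : ℝ) * k) ^ 2 / (4 * (l : ℝ) ^ 2)) / (2 * k)) + ε := ⟨_, rfl⟩
  rw [← hθ] at hC ⊢
  have hθ1 : 1 ≤ θ := by
    have h1 : ((n : ℝ) * k) ^ 2 / (4 * (l : ℝ) ^ 2) ≤ 1 / 4 := by
      rw [div_le_div_iff₀ (by positivity) (by norm_num)]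
      have : ((n : ℝ) * k) ^ 2 ≤ (l : ℝ) ^ 2 := pow_le_pow_left₀ (by positivity) hklR 2
      linarith
    have h2 := min_le_left (((n : ℝ) * k) ^ 2 / (4 * (l : ℝ) ^ 2))
        (r * (1 - ((n : ℝ) * k) ^ 2 / (4 * (l : ℝ) ^ 2)) / (2 * k))
    have h3 : 1 ≤ (n : ℝ) * r := by nlinarith
    rw [hθ]; linarith
  have hX0 : 0 < X := by linarith
  have hXθ : 1 ≤ X ^ θ := Real.one_le_rpow hX (by linarith)
  obtain ⟨T, hT⟩ : ∃ T : ℤ → ℝ, T = fun t => (Nat.card {c : ClassGroup (𝓞 (K t)) // c ^ l = 1} : ℝ) :=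
    ⟨_, rfl⟩
  have hTD : ∀ t, (Nat.card {c : ClassGroup (𝓞 (K t)) // c ^ l = 1} : ℝ) = T t := by
    intro t; rw [hT]
  have hgoal : ∑ t ∈ S, (Nat.card {c : ClassGroup (𝓞 (K t)) // c ^ l = 1} : ℝ) ^ r = ∑ t ∈ S, T t ^ r :=
    Finset.sum_congr rfl fun t _ => by rw [hTD]
  rw [hgoal]
  have hT0 : ∀ t, 0 ≤ T t := by
    intro t
    rw [← hTD]
    exact Nat.cast_nonneg _
  obtain ⟨J, hJ⟩ : ∃ J : ℕ, J = Nat.log 2 ⌊X⌋₊ := ⟨_, rfl⟩
  have hX1 : 1 ≤ ⌊X⌋₊ := Nat.le_floor (by exact_mod_cast hX)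
  obtain ⟨S', hS'⟩ : ∃ S' : Finset ℤ, S' = S.filter (fun t => t ≠ 0) := ⟨_, rfl⟩
  have hS'S : ∀ t ∈ S', t ∈ S ∧ t ≠ 0 := by
    intro t ht
    rw [hS', mem_filter] at ht
    exact ht
  have hmaps : ∀ t ∈ S', Nat.log 2 t.natAbs ∈ Finset.range (J + 1) := by
    intro t ht
    rw [mem_range, Nat.lt_succ_iff, hJ]
    apply Nat.log_mono_right
    apply Nat.le_floor
    rw [Nat.cast_natAbs, Int.cast_abs]
    exact (hS t (hS'S t ht).1).1
  have hblock : ∀ j ∈ Finset.range (J + 1),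
      ∑ t ∈ S'.filter (fun t => Nat.log 2 t.natAbs = j), T t ^ r ≤ C * ((2 : ℝ) ^ θ) ^ j := by
    intro j _
    obtain ⟨x, hx⟩ : ∃ x : ℝ, x = (2 : ℝ) ^ j := ⟨_, rfl⟩
    have hx1 : 1 ≤ x := by rw [hx]; exact one_le_pow₀ (by norm_num)
    have h3 := hC x hx1 (S'.filter (fun t => Nat.log 2 t.natAbs = j)) K (by
      intro t ht
      rw [mem_filter] at ht
      obtain ⟨htS, htj⟩ := ht
      obtain ⟨-, h4, h5⟩ := hS t (hS'S t htS).1
      have htne : t.natAbs ≠ 0 := Int.natAbs_ne_zero.mpr (hS'S t htS).2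
      have h6 : |(t : ℝ)| = (t.natAbs : ℝ) := by rw [Nat.cast_natAbs, Int.cast_abs]
      refine ⟨⟨?_, ?_⟩, h4, h5⟩
      · rw [h6, hx, ← htj]
        exact_mod_cast Nat.pow_log_le_self 2 htne
      · have h7 := Nat.lt_pow_succ_log_self (b := 2) (by norm_num) t.natAbs
        rw [htj] at h7
        rw [h6, hx]
        have h8 : (t.natAbs : ℝ) ≤ (2 : ℝ) ^ (j + 1) := by exact_mod_cast h7.le
        rw [pow_succ] at h8
        linarith)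
    have h3' : ∑ t ∈ S'.filter (fun t => Nat.log 2 t.natAbs = j), T t ^ r ≤ C * x ^ θ := by
      rw [hT]
      exact h3
    refine h3'.trans (le_of_eq ?_)
    rw [hx, ← Real.rpow_natCast 2 j, ← Real.rpow_mul (by norm_num), mul_comm (j : ℝ),
      Real.rpow_mul (by norm_num), Real.rpow_natCast]
  have h2θ : (2 : ℝ) ≤ 2 ^ θ := by
    calc (2 : ℝ) = 2 ^ (1 : ℝ) := (Real.rpow_one 2).symm
      _ ≤ 2 ^ θ := Real.rpow_le_rpow_of_exponent_le (by norm_num) hθ1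
  have hmain : ∑ t ∈ S', T t ^ r ≤ 2 * C * X ^ θ := by
    calc ∑ t ∈ S', T t ^ r
        = ∑ j ∈ Finset.range (J + 1), ∑ t ∈ S'.filter (fun t => Nat.log 2 t.natAbs = j), T t ^ r :=
          (Finset.sum_fiberwise_of_maps_to hmaps _).symm
      _ ≤ ∑ j ∈ Finset.range (J + 1), C * ((2 : ℝ) ^ θ) ^ j := Finset.sum_le_sum hblock
      _ = C * ∑ j ∈ Finset.range (J + 1), ((2 : ℝ) ^ θ) ^ j := by rw [Finset.mul_sum]
      _ ≤ C * (2 * ((2 : ℝ) ^ θ) ^ J) := by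
          have := geom_le h2θ J
          gcongr
      _ ≤ C * (2 * X ^ θ) := by
          have h1 : ((2 : ℝ) ^ θ) ^ J ≤ X ^ θ := by
            rw [← Real.rpow_natCast, ← Real.rpow_mul (by norm_num), mul_comm θ,
              Real.rpow_mul (by norm_num), Real.rpow_natCast]
            apply Real.rpow_le_rpow (by positivity) _ (by linarith)
            have h2 : 2 ^ J ≤ ⌊X⌋₊ := by
              rw [hJ]
              exact Nat.pow_log_le_self 2 (by omega)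
            have h3 : ((2 ^ J : ℕ) : ℝ) ≤ ⌊X⌋₊ := by exact_mod_cast h2
            push_cast at h3
            exact h3.trans (Nat.floor_le hX0.le)
          gcongr
      _ = 2 * C * X ^ θ := by ring
  have hzero : ∑ t ∈ S.filter (fun t => ¬ t ≠ 0), T t ^ r ≤ U ^ r := by
    by_cases h0 : (0 : ℤ) ∈ S
    · have e1 : S.filter (fun t => ¬ t ≠ 0) = {0} := by
        ext t
        rw [mem_filter, mem_singleton, not_not]
        constructor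
        · exact fun h => h.2
        · rintro rfl
          exact ⟨h0, rfl⟩
      rw [e1, sum_singleton]
      apply pow_le_pow_left₀ (hT0 0)
      have h1 := (hC1 l hl (K 0) (hS 0 h0).2.1 0 ∅ (by simp)).1
      rw [(hS 0 h0).2.2, hTD] at h1
      rw [hU]
      exact h1
    · have e1 : S.filter (fun t => ¬ t ≠ 0) = ∅ := by
        apply filter_eq_empty_iff.2
        intro t ht h
        rw [not_not] at h
        exact h0 (h ▸ ht)
      rw [e1, sum_empty]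
      positivity
  rw [← Finset.sum_filter_add_sum_filter_not S (fun t => t ≠ 0), ← hS']
  calc ∑ t ∈ S', T t ^ r + ∑ t ∈ S.filter (fun t => ¬ t ≠ 0), T t ^ r
      ≤ 2 * C * X ^ θ + U ^ r := add_le_add hmain hzero
    _ ≤ 2 * C * X ^ θ + U ^ r * X ^ θ := by
        have : U ^ r * 1 ≤ U ^ r * X ^ θ := mul_le_mul_of_nonneg_left hXθ (by positivity)
        linarith
    _ = (U ^ r + 2 * C) * X ^ θ := by ring

/-- the exponent for a large ratio -/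
theorem expo (lam : ℝ) (hl : 100 ≤ lam) : ∃ k : ℕ, 2 ≤ k ∧ (k : ℝ) ≤ lam ∧
    3 / (8 * lam ^ ((2 : ℝ) / 3)) < min ((k : ℝ) ^ 2 / (4 * lam ^ 2))
        ((1 - (k : ℝ) ^ 2 / (4 * lam ^ 2)) / (2 * k)) := by
  have hl0 : (0 : ℝ) < lam := by linarith
  obtain ⟨t, ht⟩ : ∃ t : ℝ, t = lam ^ ((2 : ℝ) / 3) := ⟨_, rfl⟩
  rw [← ht]
  have ht0 : 0 < t := by rw [ht]; positivity
  have ht3 : t ^ 3 = lam ^ 2 := by
    rw [ht, ← Real.rpow_natCast, ← Real.rpow_mul hl0.le, ← Real.rpow_natCast]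
    norm_num
  have ht21 : 21.5 ≤ t := by
    by_contra h
    rw [not_le] at h
    have h1 : t ^ 3 < 21.5 ^ 3 := pow_lt_pow_left₀ h ht0.le (by norm_num)
    rw [ht3] at h1
    nlinarith
  -- `c = 2 ^ (1/3)`
  obtain ⟨c, hc⟩ : ∃ c : ℝ, c = (2 : ℝ) ^ ((1 : ℝ) / 3) := ⟨_, rfl⟩
  have hc0 : 0 < c := by rw [hc]; positivity
  have hc3 : c ^ 3 = 2 := by
    rw [hc, ← Real.rpow_natCast, ← Real.rpow_mul (by norm_num)]
    norm_num
  have hc1 : c ≤ 1.26 := by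
    by_contra h
    rw [not_le] at h
    have h1 : (1.26 : ℝ) ^ 3 < c ^ 3 := pow_lt_pow_left₀ h (by norm_num) (by norm_num)
    rw [hc3] at h1
    norm_num at h1
  have hc2 : 1.2599 ≤ c := by
    by_contra h
    rw [not_le] at h
    have h1 : c ^ 3 < (1.2599 : ℝ) ^ 3 := pow_lt_pow_left₀ h hc0.le (by norm_num)
    rw [hc3] at h1
    norm_num at h1
  obtain ⟨k, hk⟩ : ∃ k : ℕ, k = ⌈c * t⌉₊ := ⟨_, rfl⟩
  have hkl1 : c * t ≤ k := by rw [hk]; exact Nat.le_ceil _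
  have hkl2 : (k : ℝ) < c * t + 1 := by rw [hk]; exact Nat.ceil_lt_add_one (by positivity)
  have hk27 : (27 : ℝ) ≤ k := by nlinarith
  have hk0 : (0 : ℝ) < k := by linarith
  refine ⟨k, ?_, ?_, ?_⟩
  · have : (2 : ℝ) ≤ k := by linarith
    exact_mod_cast this
  · have h2 : (k : ℝ) ^ 2 ≤ lam ^ 2 := by
      rw [← ht3]
      have h3 : (k : ℝ) ≤ 1.31 * t := by nlinarith
      have h4 : (k : ℝ) ^ 2 ≤ (1.31 * t) ^ 2 := pow_le_pow_left₀ hk0.le h3 2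
      nlinarith
    exact (pow_le_pow_iff_left₀ hk0.le hl0.le two_ne_zero).1 h2
  · rw [← ht3]
    have hkt : (k : ℝ) < 1.26 * t + 1 := by nlinarith
    apply lt_min
    · rw [div_lt_div_iff₀ (by positivity) (by positivity)]
      have h1 : (c * t) ^ 2 ≤ (k : ℝ) ^ 2 := pow_le_pow_left₀ (by positivity) hkl1 2
      have h2 : 1.5 < c ^ 2 := by nlinarith
      have h3 : 1.5 * t ^ 2 < (k : ℝ) ^ 2 := by nlinarith
      have h4 : 1.5 * t ^ 2 * (8 * t) < (k : ℝ) ^ 2 * (8 * t) := mul_lt_mul_of_pos_right h3 (by positivity)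
      nlinarith
    · -- the value at `c t + 1`
      have hkc : (k : ℝ) ≤ c * t + 1 := hkl2.le
      have h1 : (k : ℝ) ^ 2 / (4 * t ^ 3) ≤ 0.427 / t := by
        rw [div_le_div_iff₀ (by positivity) ht0]
        have h2 : (k : ℝ) ≤ 1.30652 * t := by nlinarith
        have h3 : (k : ℝ) ^ 2 ≤ (1.30652 * t) ^ 2 := pow_le_pow_left₀ hk0.le h2 2
        have h4 : (k : ℝ) ^ 2 * t ≤ (1.30652 * t) ^ 2 * t := mul_le_mul_of_nonneg_right h3 ht0.le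
        nlinarith
      rw [div_lt_div_iff₀ (by positivity) (by positivity)]
      have h5 : (1 - 0.427 / t) * (8 * t) = 8 * t - 3.416 := by
        field_simp
        ring
      have h6 : (1 - 0.427 / t) * (8 * t) ≤ (1 - (k : ℝ) ^ 2 / (4 * t ^ 3)) * (8 * t) := by
        apply mul_le_mul_of_nonneg_right _ (by positivity)
        linarith
      nlinarith

/-- the mean value for a large ratio -/
theorem mean (f : ℤ[X]) (hsq : ∀ (c : ℚ) (g : ℚ[X]), f.map (Int.castRingHom ℚ) ≠ C c * g ^ 2)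
    (n : ℕ) (hfn : f.natDegree = n) (hn : 1 ≤ n)
    (l : ℕ) (hl : 100 * n ≤ l) : ∃ C : ℝ, 0 < C ∧ ∀ X : ℝ, 1 ≤ X →
    ∀ (S : Finset ℤ) (K : ℤ → Type) [∀ t, Field (K t)] [∀ t, NumberField (K t)],
    (∀ t ∈ S, |(t : ℝ)| ≤ X ∧ Module.finrank ℚ (K t) = 2 ∧ NumberField.discr (K t) = f.eval t) →
    ∑ t ∈ S, (Nat.card {c : ClassGroup (𝓞 (K t)) // c ^ l = 1} : ℝ) ≤
      C * X ^ (1 + n / 2 - 3 / 8 * ((n : ℝ) / l) ^ ((2 : ℝ) / 3) : ℝ) := by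
  have hn0 : (0 : ℝ) < n := by exact_mod_cast hn
  have hlR : 100 * (n : ℝ) ≤ l := by exact_mod_cast hl
  have hl0 : (0 : ℝ) < l := by linarith
  obtain ⟨k, hk2, hkl, hlt⟩ := expo ((l : ℝ) / n) (by rw [le_div_iff₀ hn0]; exact hlR)
  have hkl' : n * k ≤ l := by
    rw [le_div_iff₀ hn0] at hkl
    have : (n : ℝ) * k ≤ l := by linarith
    exact_mod_cast this
  have hk0 : (0 : ℝ) < k := by
    have : 0 < k := by omega
    exact_mod_cast this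
  have e1 : (k : ℝ) ^ 2 / (4 * ((l : ℝ) / n) ^ 2) = ((n : ℝ) * k) ^ 2 / (4 * (l : ℝ) ^ 2) := by
    field_simp
  have e2 : 3 / (8 * ((l : ℝ) / n) ^ ((2 : ℝ) / 3)) = 3 / 8 * ((n : ℝ) / l) ^ ((2 : ℝ) / 3) := by
    have : ((n : ℝ) / l) = ((l : ℝ) / n)⁻¹ := by rw [inv_div]
    rw [this, Real.inv_rpow (by positivity)]
    have h0 : 0 < ((l : ℝ) / n) ^ ((2 : ℝ) / 3) := by positivity
    field_simp
  rw [e1, e2] at hlt
  obtain ⟨v, hv⟩ : ∃ v, v = min (((n : ℝ) * k) ^ 2 / (4 * (l : ℝ) ^ 2))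
        ((1 - ((n : ℝ) * k) ^ 2 / (4 * (l : ℝ) ^ 2)) / (2 * k)) := ⟨_, rfl⟩
  obtain ⟨u, hu⟩ : ∃ u, u = 3 / 8 * ((n : ℝ) / l) ^ ((2 : ℝ) / 3) := ⟨_, rfl⟩
  rw [← hv, ← hu] at hlt
  obtain ⟨C, hC0, hC⟩ := full f hsq n hfn hn l k 1 (by omega) le_rfl (by omega) hkl' (by omega) (v - u)
    (by linarith)
  refine ⟨C, hC0, ?_⟩
  intro X hX S K _ _ hS
  have h1 := hC X hX S K hS
  rw [Nat.cast_one, one_mul, ← hv] at h1
  rw [← hu]
  simp only [pow_one] at h1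
  refine h1.trans (le_of_eq ?_)
  congr 2
  ring

end Pool.Agent.U916.GP
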