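import Pool.Agent.U916.GT.Siz

/-!
# The determinants for the values of a polynomial
-/

set_option autoImplicit false

namespace Pool.Agent.U916.GP

open Polynomial Pool.Agent.W223.HZ Pool.Agent.U916.GQ Pool.Agent.U916.GT

lemma sizeN (n l k m : ℕ) (hn : 1 ≤ n) (hk : 1 ≤ k) (hkl : n * k ≤ l) (hm : m = ⌈((l : ℝ) / k) ^ 2 / n⌉₊)
    {Kc X L Bx By : ℝ}
    {P E : ℕ} (hE : (l : ℝ) * m - (l : ℝ) ^ 2 / (4 * k) ≤ E) (hKc : 1 ≤ Kc)
    (hX : (((2 * m).factorial : ℝ) * Kc ^ m) ^ 4 < X) (hP1 : 1 ≤ P) (hP : (P : ℝ) ^ k ≤ X)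
    (hBx : 0 ≤ Bx) (hBy : 0 ≤ By) (hB : Bx * By * X ^ ((n : ℝ) / 2) ≤ Kc * (P : ℝ) ^ l) (hL0 : 0 ≤ L)
    (hL : L ≤ X ^ (((n : ℝ) * k) ^ 2 / (4 * (l : ℝ) ^ 2))) :
    ((2 * m).factorial : ℝ) * ((Bx * By) ^ m * L ^ (m * (m - 1))) < (P : ℝ) ^ E := by
  have hn1 : (1 : ℝ) ≤ n := by exact_mod_cast hn
  have hn0 : (0 : ℝ) < n := by linarith
  have hk0 : (0 : ℝ) < k := by exact_mod_cast hk
  have hl0 : (0 : ℝ) < l := by
    have : 1 ≤ l := le_trans (Nat.mul_pos hn hk) hkl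
    exact_mod_cast this
  have hklR : (n : ℝ) * k ≤ l := by exact_mod_cast hkl
  obtain ⟨a, ha⟩ : ∃ a : ℝ, a = ((l : ℝ) / k) ^ 2 := ⟨_, rfl⟩
  obtain ⟨b, hb⟩ : ∃ b : ℝ, b = a / n := ⟨_, rfl⟩
  have hab : a = n * b := by rw [hb]; field_simp
  have han : (n : ℝ) ^ 2 ≤ a := by
    rw [ha]
    apply pow_le_pow_left₀ hn0.le
    rw [le_div_iff₀ hk0]
    exact hklR
  have hb1 : 1 ≤ b := by
    rw [hb, le_div_iff₀ hn0]
    nlinarith
  have hb0 : 0 < b := by linarith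
  have ha0 : 0 < a := by rw [hab]; positivity
  rw [← ha, ← hb] at hm
  have hma : b ≤ m := by rw [hm]; exact Nat.le_ceil b
  have hma2 : (m : ℝ) < b + 1 := by rw [hm]; exact Nat.ceil_lt_add_one hb0.le
  have hm1 : 1 ≤ m := by
    have : (1 : ℝ) ≤ m := by linarith
    exact_mod_cast this
  have hδ : ((n : ℝ) * k) ^ 2 / (4 * (l : ℝ) ^ 2) = n / (4 * b) := by
    have hl2 : (l : ℝ) ^ 2 = n * b * k ^ 2 := by
      rw [← hab, ha]
      field_simp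
    rw [hl2]
    field_simp
  have hla : (l : ℝ) ^ 2 / (4 * k) = k * (a / 4) := by
    rw [ha]
    field_simp
  rw [hδ] at hL
  rw [hla] at hE
  obtain ⟨F, hF⟩ : ∃ F : ℝ, F = ((2 * m).factorial : ℝ) := ⟨_, rfl⟩
  rw [← hF] at hX ⊢
  have hF1 : 1 ≤ F := by
    rw [hF]
    exact_mod_cast Nat.factorial_pos _
  have hFK1 : 1 ≤ F * Kc ^ m := by
    have : 1 ≤ Kc ^ m := one_le_pow₀ hKc
    nlinarith
  have hX1 : 1 < X := lt_of_le_of_lt (one_le_pow₀ hFK1) hX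
  have hX0 : 0 < X := by linarith
  have hPR : (0 : ℝ) < P := by exact_mod_cast hP1
  have hP1R : (1 : ℝ) ≤ P := by exact_mod_cast hP1
  -- the constant
  have h1 : F * Kc ^ m < X ^ ((1 : ℝ) / 4) := by
    have e1 : ((F * Kc ^ m) ^ 4) ^ ((1 : ℝ) / 4) = F * Kc ^ m := by
      rw [← Real.rpow_natCast, ← Real.rpow_mul (by positivity)]
      norm_num
    rw [← e1]
    exact Real.rpow_lt_rpow (by positivity) hX (by norm_num)
  -- the product of the sizes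
  have h2 : (Bx * By) ^ m ≤ Kc ^ m * ((P : ℝ) ^ l) ^ m * X ^ (-((n : ℝ) * m) / 2) := by
    have e1 : Bx * By ≤ Kc * (P : ℝ) ^ l * X ^ (-(n : ℝ) / 2) := by
      have e2 : X ^ (-(n : ℝ) / 2) = (X ^ ((n : ℝ) / 2))⁻¹ := by
        rw [← Real.rpow_neg hX0.le]
        congr 1
        ring
      rw [e2, ← div_eq_mul_inv, le_div_iff₀ (Real.rpow_pos_of_pos hX0 _)]
      exact hB
    refine (pow_le_pow_left₀ (by positivity) e1 m).trans (le_of_eq ?_)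
    rw [mul_pow, mul_pow, ← Real.rpow_natCast (X ^ (-(n : ℝ) / 2)), ← Real.rpow_mul hX0.le]
    congr 2
    ring
  have h3 : L ^ (m * (m - 1)) ≤ X ^ (n / (4 * b) * (m * (m - 1))) := by
    refine (pow_le_pow_left₀ hL0 hL _).trans (le_of_eq ?_)
    rw [← Real.rpow_natCast, ← Real.rpow_mul hX0.le]
    congr 1
    push_cast [Nat.cast_sub hm1]
    ring
  have h4 : ((P : ℝ) ^ l) ^ m * X ^ (-(a / 4)) ≤ (P : ℝ) ^ E := by
    have e1 : (P : ℝ) ^ ((l : ℝ) * m - k * (a / 4)) ≤ (P : ℝ) ^ E := by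
      rw [← Real.rpow_natCast (P : ℝ) E]
      exact Real.rpow_le_rpow_of_exponent_le hP1R hE
    refine le_trans ?_ e1
    rw [Real.rpow_sub hPR, ← pow_mul, div_eq_mul_inv, ← Real.rpow_natCast (P : ℝ) (l * m)]
    push_cast
    apply mul_le_mul_of_nonneg_left _ (by positivity)
    rw [Real.rpow_neg hX0.le]
    apply inv_anti₀ (by positivity)
    rw [Real.rpow_mul hPR.le, Real.rpow_natCast]
    exact Real.rpow_le_rpow (by positivity) hP (by positivity)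
  have hexp : (1 : ℝ) / 4 + (-((n : ℝ) * m) / 2 + n / (4 * b) * (m * (m - 1))) ≤ -(a / 4) := by
    have e1 : (m : ℝ) * (m - 1) ≤ 2 * b * m - b ^ 2 - b := by nlinarith
    have e2 : n / (4 * b) * ((m : ℝ) * (m - 1)) ≤ n / (4 * b) * (2 * b * m - b ^ 2 - b) :=
      mul_le_mul_of_nonneg_left e1 (by positivity)
    have e3 : n / (4 * b) * (2 * b * m - b ^ 2 - b) = n * m / 2 - n * b / 4 - n / 4 := by
      field_simp
      ring
    rw [e3] at e2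
    rw [hab]
    linarith
  calc F * ((Bx * By) ^ m * L ^ (m * (m - 1)))
      ≤ F * ((Kc ^ m * ((P : ℝ) ^ l) ^ m * X ^ (-((n : ℝ) * m) / 2)) *
          X ^ (n / (4 * b) * (m * (m - 1)))) := by
        apply mul_le_mul_of_nonneg_left _ (by linarith)
        exact mul_le_mul h2 h3 (by positivity) (by positivity)
    _ = (F * Kc ^ m) * (((P : ℝ) ^ l) ^ m * X ^ (-((n : ℝ) * m) / 2 + n / (4 * b) * (m * (m - 1)))) := by
        rw [Real.rpow_add hX0]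
        ring
    _ < X ^ ((1 : ℝ) / 4) * (((P : ℝ) ^ l) ^ m * X ^ (-((n : ℝ) * m) / 2 +
          n / (4 * b) * (m * (m - 1)))) := by
        apply mul_lt_mul_of_pos_right h1
        positivity
    _ = ((P : ℝ) ^ l) ^ m * X ^ ((1 : ℝ) / 4 + (-((n : ℝ) * m) / 2 +
          n / (4 * b) * (m * (m - 1)))) := by
        rw [Real.rpow_add hX0 ((1 : ℝ) / 4)]
        ring
    _ ≤ ((P : ℝ) ^ l) ^ m * X ^ (-(a / 4)) := by
        apply mul_le_mul_of_nonneg_left _ (by positivity)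
        exact Real.rpow_le_rpow_of_exponent_le hX1.le hexp
    _ ≤ (P : ℝ) ^ E := h4

/-- the polynomial `f (t₀) - f (t₀ + X)` -/
noncomputable def off (f : ℤ[X]) (t₀ : ℤ) : ℤ[X] := C (f.eval t₀) - f.comp (X + C t₀)

lemma off_eval (f : ℤ[X]) (t₀ z : ℤ) : (off f t₀).eval z = f.eval t₀ - f.eval (t₀ + z) := by
  rw [off, eval_sub, eval_C, eval_comp, eval_add, eval_X, eval_C, add_comm z]

/-- **the determinants vanish** -/
theorem vanishN (f : ℤ[X]) (n l k m : ℕ) (hn : 1 ≤ n) (hk : 1 ≤ k) (hkl : n * k ≤ l)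
    (hm : m = ⌈((l : ℝ) / k) ^ 2 / n⌉₊) {Kc X L Bx By : ℝ}
    {P : ℕ} (hKc : 1 ≤ Kc)
    (hX : (((2 * m).factorial : ℝ) * Kc ^ m) ^ 4 < X) (hP1 : 1 ≤ P) (hP : (P : ℝ) ^ k ≤ X)
    (hBx : 0 ≤ Bx) (hBy : 0 ≤ By) (hB : Bx * By * X ^ ((n : ℝ) / 2) ≤ Kc * (P : ℝ) ^ l) (hL0 : 0 ≤ L)
    (hL : L ≤ X ^ (((n : ℝ) * k) ^ 2 / (4 * (l : ℝ) ^ 2))) (t₀ s u N : ℤ) (x y σ : Fin m ⊕ Fin m → ℤ)
    (hs : (P : ℤ) ∣ s ^ 2 - f.eval t₀) (hu : (P : ℤ) ∣ 1 + 2 * s * u)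
    (heq : ∀ i, x i ^ 2 - f.eval (t₀ + (P : ℤ) ^ k * σ i) * y i ^ 2 = (P : ℤ) ^ l * N)
    (hcop : ∀ i, IsCoprime (2 * s * y i) (P : ℤ)) (hxy : ∀ i, (P : ℤ) ∣ x i - s * y i)
    (hx : ∀ i, |(x i : ℝ)| ≤ Bx) (hy : ∀ i, |(y i : ℝ)| ≤ By) (hσ : ∀ i, |(σ i : ℝ)| ≤ L) :
    (Mat m x y σ).det = 0 := by
  obtain ⟨E, hE1, hE2⟩ := E_exists l k m hk
  have h1 : ∀ i, (P : ℤ) ^ l ∣ x i - ((HH s u (-f.eval t₀) l).comp (off f t₀)).eval ((P : ℤ) ^ k * σ i) * y i := by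
    intro i
    rw [eval_comp, off_eval]
    have hPk : (P : ℤ) ∣ f.eval t₀ - f.eval (t₀ + (P : ℤ) ^ k * σ i) := by
      have e1 := sub_dvd_eval_sub t₀ (t₀ + (P : ℤ) ^ k * σ i) f
      refine Dvd.dvd.trans ?_ e1
      have e2 : t₀ - (t₀ + (P : ℤ) ^ k * σ i) = (P : ℤ) ^ k * (-σ i) := by ring
      rw [e2]
      exact Dvd.dvd.mul_right (dvd_pow_self _ (by omega)) _
    refine point_congr (P := (P : ℤ)) (a := l) hPk ?_ hu (pow_dvd_pow _ (by omega)) (hxy i) (hcop i) ?_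
    · have : s ^ 2 + -f.eval t₀ = s ^ 2 - f.eval t₀ := by ring
      rw [this]
      exact hs
    · have : x i ^ 2 + (-f.eval t₀ + (f.eval t₀ - f.eval (t₀ + (P : ℤ) ^ k * σ i))) * y i ^ 2 =
          x i ^ 2 - f.eval (t₀ + (P : ℤ) ^ k * σ i) * y i ^ 2 := by ring
      rw [this, heq i]
      exact Dvd.intro _ rfl
  have h2 := det_dvd hk (P : ℤ) ((HH s u (-f.eval t₀) l).comp (off f t₀)) x y σ h1 E hE1
  have h3 := det_le m x y σ hBx hBy hx hy hσ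
  have h4 := sizeN n l k m hn hk hkl hm hE2 hKc hX hP1 hP hBx hBy hB hL0 hL
  have h5 := h3.trans_lt h4
  apply Int.eq_zero_of_abs_lt_dvd h2
  have h6 : ((|(Mat m x y σ).det| : ℤ) : ℝ) < (((P : ℤ) ^ E : ℤ) : ℝ) := by
    rw [Int.cast_abs, Int.cast_pow, Int.cast_natCast]
    exact h5
  exact_mod_cast h6

end Pool.Agent.U916.GP
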