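import Pool.Agent.U916.GP.Avg
import Pool.Agent.U916.GT.Dyad
import Pool.Agent.Y542.TQ.Sup
import Pool.Agent.Y159.TQ.Short

/-!
# The choice of the range of the primes for the values of a polynomial
-/

set_option autoImplicit false

namespace Pool.Agent.U916.GP

open Polynomial Finset Filter Pool.Agent.TH869.EVF Pool.Agent.Y159.QS Pool.Agent.U916.GT
open scoped Classical

/-- the size of the values of a polynomial -/
theorem poly_bounds (f : ℤ[X]) (hf0 : f ≠ 0) : ∃ A : ℝ, 1 ≤ A ∧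
    (∀ t : ℤ, 2 * A ≤ |(t : ℝ)| → |(t : ℝ)| ^ f.natDegree ≤ 2 * |((f.eval t : ℤ) : ℝ)|) ∧
    ∀ t : ℤ, 1 ≤ |(t : ℝ)| → |((f.eval t : ℤ) : ℝ)| ≤ A * |(t : ℝ)| ^ f.natDegree := by
  obtain ⟨n, hn⟩ : ∃ n, n = f.natDegree := ⟨_, rfl⟩
  rw [← hn]
  obtain ⟨A, hA⟩ : ∃ A : ℝ, A = 1 + ∑ i ∈ range (n + 1), |((f.coeff i : ℤ) : ℝ)| := ⟨_, rfl⟩
  have hA1 : 1 ≤ A := by
    rw [hA]
    have : 0 ≤ ∑ i ∈ range (n + 1), |((f.coeff i : ℤ) : ℝ)| := Finset.sum_nonneg fun i _ => abs_nonneg _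
    linarith
  have hev : ∀ t : ℤ, ((f.eval t : ℤ) : ℝ) = ∑ i ∈ range (n + 1), ((f.coeff i : ℤ) : ℝ) * (t : ℝ) ^ i := by
    intro t
    rw [eval_eq_sum_range, ← hn]
    push_cast
    rfl
  refine ⟨A, hA1, ?_, ?_⟩
  · intro t ht
    have ht1 : 1 ≤ |(t : ℝ)| := by linarith
    have ht0 : 0 < |(t : ℝ)| := by linarith
    have h1 := hev t
    rw [Finset.sum_range_succ] at h1
    obtain ⟨R, hR⟩ : ∃ R : ℝ, R = ∑ i ∈ range n, ((f.coeff i : ℤ) : ℝ) * (t : ℝ) ^ i := ⟨_, rfl⟩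
    rw [← hR] at h1
    have h2 : |(t : ℝ)| * |R| ≤ A * |(t : ℝ)| ^ n := by
      have e1 : |R| ≤ ∑ i ∈ range n, |((f.coeff i : ℤ) : ℝ)| * |(t : ℝ)| ^ i := by
        rw [hR]
        refine (Finset.abs_sum_le_sum_abs _ _).trans (le_of_eq ?_)
        refine Finset.sum_congr rfl fun i _ => ?_
        rw [abs_mul, abs_pow]
      calc |(t : ℝ)| * |R| ≤ |(t : ℝ)| * ∑ i ∈ range n, |((f.coeff i : ℤ) : ℝ)| * |(t : ℝ)| ^ i := by
            gcongr
        _ = ∑ i ∈ range n, |((f.coeff i : ℤ) : ℝ)| * |(t : ℝ)| ^ (i + 1) := by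
            rw [Finset.mul_sum]
            refine Finset.sum_congr rfl fun i _ => ?_
            ring
        _ ≤ ∑ i ∈ range n, |((f.coeff i : ℤ) : ℝ)| * |(t : ℝ)| ^ n := by
            apply Finset.sum_le_sum
            intro i hi
            rw [mem_range] at hi
            apply mul_le_mul_of_nonneg_left _ (abs_nonneg _)
            exact pow_le_pow_right₀ ht1 (by omega)
        _ = (∑ i ∈ range n, |((f.coeff i : ℤ) : ℝ)|) * |(t : ℝ)| ^ n := by rw [Finset.sum_mul]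
        _ ≤ A * |(t : ℝ)| ^ n := by
            apply mul_le_mul_of_nonneg_right _ (by positivity)
            rw [hA, Finset.sum_range_succ]
            have := abs_nonneg ((f.coeff n : ℤ) : ℝ)
            linarith
    have h3 : |R| ≤ |(t : ℝ)| ^ n / 2 := by
      rw [le_div_iff₀ (by norm_num)]
      have e1 : 2 * A * (|R| * 2) ≤ |(t : ℝ)| * (|R| * 2) := mul_le_mul_of_nonneg_right ht (by positivity)
      have e2 : 2 * A * (|R| * 2) ≤ 2 * A * |(t : ℝ)| ^ n := by linarith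
      exact le_of_mul_le_mul_left e2 (by positivity)
    have hlead : (1 : ℝ) ≤ |((f.coeff n : ℤ) : ℝ)| := by
      have : f.coeff n ≠ 0 := by
        rw [hn]
        exact leadingCoeff_ne_zero.2 hf0
      exact_mod_cast Int.one_le_abs this
    have h4 : |(t : ℝ)| ^ n ≤ |((f.coeff n : ℤ) : ℝ) * (t : ℝ) ^ n| := by
      rw [abs_mul, abs_pow]
      exact le_mul_of_one_le_left (by positivity) hlead
    have h5 : |((f.coeff n : ℤ) : ℝ) * (t : ℝ) ^ n| ≤ |((f.eval t : ℤ) : ℝ)| + |R| := by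
      have : ((f.coeff n : ℤ) : ℝ) * (t : ℝ) ^ n = ((f.eval t : ℤ) : ℝ) - R := by rw [h1]; ring
      rw [this]
      exact abs_sub _ _
    linarith
  · intro t ht1
    rw [hev t]
    refine (Finset.abs_sum_le_sum_abs _ _).trans ?_
    calc ∑ i ∈ range (n + 1), |((f.coeff i : ℤ) : ℝ) * (t : ℝ) ^ i|
        ≤ ∑ i ∈ range (n + 1), |((f.coeff i : ℤ) : ℝ)| * |(t : ℝ)| ^ n := by
          apply Finset.sum_le_sum
          intro i hi
          rw [mem_range] at hi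
          rw [abs_mul, abs_pow]
          apply mul_le_mul_of_nonneg_left _ (abs_nonneg _)
          exact pow_le_pow_right₀ ht1 (by omega)
      _ = (∑ i ∈ range (n + 1), |((f.coeff i : ℤ) : ℝ)|) * |(t : ℝ)| ^ n := by rw [Finset.sum_mul]
      _ ≤ A * |(t : ℝ)| ^ n := by
          apply mul_le_mul_of_nonneg_right _ (by positivity)
          rw [hA]
          linarith

/-- the choice of the range of the primes -/
theorem range_choice (f : ℤ[X]) (hsq : ∀ (c : ℚ) (g : ℚ[X]), f.map (Int.castRingHom ℚ) ≠ C c * g ^ 2)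
    (n : ℕ) (G : ℝ) (hG : 1 ≤ G) (z0 : ℕ)
    (l k r : ℕ) (hr : 1 ≤ r) (hk : 1 ≤ k) (hn : 1 ≤ n) (hkl : n * k ≤ l) (hrk : 3 * r ≤ 2 * k) (κ : ℝ)
    (hκ0 : 0 < κ) (hκ8 : κ ≤ 1 / 8) (hκδ : 2 * κ ≤ ((n : ℝ) * k) ^ 2 / (4 * (l : ℝ) ^ 2)) :
    ∃ C X0 : ℝ, 0 < C ∧ 1 ≤ X0 ∧ ∀ X : ℝ, X0 ≤ X → ∃ z : ℕ, z0 ≤ z ∧ 5 ≤ z ∧ ((z : ℝ) ^ 2) ^ k ≤ X ∧
      ((z : ℝ) ^ 2) ^ k ≤ X ^ (1 - ((n : ℝ) * k) ^ 2 / (4 * (l : ℝ) ^ 2) + 2 * κ) ∧
      X ^ (1 - ((n : ℝ) * k) ^ 2 / (4 * (l : ℝ) ^ 2)) ≤ ((z : ℝ) ^ 2 / 4) ^ k ∧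
      0 < ((Qz z).card : ℝ) ∧
      (1 / ((Qz z).card : ℝ)) ^ r ≤ X ^ (-(r * (1 - ((n : ℝ) * k) ^ 2 / (4 * (l : ℝ) ^ 2)) / (2 * k))) ∧
      ∀ S : Finset ℤ, (∀ t ∈ S, (X ≤ |(t : ℝ)| ∧ |(t : ℝ)| ≤ 2 * X) ∧ f.eval t ≠ 0 ∧
        |((f.eval t : ℤ) : ℝ)| ≤ G * X ^ (n : ℝ)) →
      ((S.filter (fun t => (((Qz z).filter (fun p => QR p (f.eval t))).card : ℝ) <
        (Qz z).card / 8)).card : ℝ) ≤
        C * (X * X ^ (-(r * (1 - ((n : ℝ) * k) ^ 2 / (4 * (l : ℝ) ^ 2)) / (2 * k))) +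
          X ^ (1 - ((n : ℝ) * k) ^ 2 / (4 * (l : ℝ) ^ 2))) := by
  have hn0 : (0 : ℝ) < n := by exact_mod_cast hn
  have hk0 : (0 : ℝ) < k := by exact_mod_cast hk
  have hk1 : (1 : ℝ) ≤ k := by exact_mod_cast hk
  have hr1 : (1 : ℝ) ≤ r := by exact_mod_cast hr
  have hl0 : (0 : ℝ) < l := by
    have : 1 ≤ l := le_trans (Nat.mul_pos hn hk) hkl
    exact_mod_cast this
  have hklR : (n : ℝ) * k ≤ l := by exact_mod_cast hkl
  have hrkR : 3 * (r : ℝ) ≤ 2 * k := by exact_mod_cast hrk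
  obtain ⟨δ, hδ⟩ : ∃ δ : ℝ, δ = ((n : ℝ) * k) ^ 2 / (4 * (l : ℝ) ^ 2) := ⟨_, rfl⟩
  rw [← hδ] at hκδ ⊢
  have hδ4 : δ ≤ 1 / 4 := by
    rw [hδ, div_le_div_iff₀ (by positivity) (by norm_num)]
    have : ((n : ℝ) * k) ^ 2 ≤ (l : ℝ) ^ 2 := pow_le_pow_left₀ (by positivity) hklR 2
    linarith
  have hδ0 : 0 < δ := by rw [hδ]; positivity
  have h1δ : 3 / 4 ≤ 1 - δ := by linarith
  obtain ⟨c, hc⟩ : ∃ c : ℝ, c = (1 - δ) * (1 + 2 * κ) / (2 * k) := ⟨_, rfl⟩
  have hc0 : 0 < c := by rw [hc]; positivity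
  have hck : c * (2 * k) = (1 - δ) * (1 + 2 * κ) := by rw [hc]; field_simp
  have hcκ : (1 - δ) * (1 + κ / 2) ≤ c * (1 - κ) * (2 * k) := by
    have e1 : c * (1 - κ) * (2 * k) = (1 - δ) * ((1 + 2 * κ) * (1 - κ)) := by
      calc c * (1 - κ) * (2 * k) = (c * (2 * k)) * (1 - κ) := by ring
        _ = (1 - δ) * ((1 + 2 * κ) * (1 - κ)) := by rw [hck]; ring
    rw [e1]
    apply mul_le_mul_of_nonneg_left _ (by linarith)
    nlinarith
  obtain ⟨C4, Y0, hC40, hY01, hC4⟩ := Pool.Agent.Y542.TQ.sup f hsq r hr κ hκ0 (by linarith)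
  obtain ⟨a, ha⟩ : ∃ a : ℝ, a = (1 - δ) / (2 * k) := ⟨_, rfl⟩
  have ha0 : 0 < a := by rw [ha]; positivity
  have hlG : 0 ≤ Real.log G := Real.log_nonneg hG
  obtain ⟨x1, hx11, hx1⟩ := large_rpow Y0 c hc0
  obtain ⟨x2, hx21, hx2⟩ := large_rpow (z0 + 5) (c * (1 - κ)) (mul_pos hc0 (by linarith))
  obtain ⟨x3, hx31, hx3⟩ := large_rpow (4 ^ k) ((1 - δ) * (κ / 2)) (by positivity)
  obtain ⟨x4, hx41, hx4⟩ := large_rpow (8 * (Real.log G + n * (2 / a))) (a / 2) (by positivity)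
  refine ⟨4 * C4, max (max x1 x4) (max x2 x3), by positivity,
    le_max_of_le_left (le_max_of_le_left hx11), ?_⟩
  intro X hX
  have hXx1 : x1 ≤ X := ((le_max_left _ _).trans (le_max_left _ _)).trans hX
  have hXx4 : x4 ≤ X := ((le_max_right _ _).trans (le_max_left _ _)).trans hX
  have hXx2 : x2 ≤ X := ((le_max_left _ _).trans (le_max_right _ _)).trans hX
  have hXx3 : x3 ≤ X := ((le_max_right _ _).trans (le_max_right _ _)).trans hX
  have hX1 : 1 ≤ X := hx11.trans hXx1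
  have hX0 : 0 < X := by linarith
  obtain ⟨y, hy⟩ : ∃ y : ℝ, y = X ^ c := ⟨_, rfl⟩
  have hyY : Y0 ≤ y := by rw [hy]; exact hx1 X hXx1
  have hy0 : 0 < y := by rw [hy]; exact Real.rpow_pos_of_pos hX0 _
  have hy1 : 1 ≤ y := by rw [hy]; exact Real.one_le_rpow hX1 hc0.le
  obtain ⟨z, hzy, hz, hbad⟩ := hC4 y hyY
  have hyκ : y ^ (1 - κ) = X ^ (c * (1 - κ)) := by
    rw [hy, ← Real.rpow_mul hX0.le]
  have hcz : ((Qz z).card : ℝ) ≤ z := by
    have := card_Qz z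
    linarith
  have hz05 : (z0 : ℝ) + 5 ≤ z := by
    have h1 := hx2 X hXx2
    rw [← hyκ] at h1
    linarith
  have hz0R : (0 : ℝ) ≤ z0 := Nat.cast_nonneg _
  have hz5 : (5 : ℝ) ≤ z := by linarith
  have hz5N : 5 ≤ z := by exact_mod_cast hz5
  have hz0N : z0 ≤ z := by
    have : (z0 : ℝ) ≤ z := by linarith
    exact_mod_cast this
  have hzκ : X ^ (c * (1 - κ)) ≤ z := by rw [← hyκ]; linarith
  have hy2k : (y ^ 2) ^ k = X ^ ((1 - δ) * (1 + 2 * κ)) := by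
    rw [← pow_mul, ← Real.rpow_natCast, hy, ← Real.rpow_mul hX0.le, ← hck]
    push_cast
    rfl
  have hz2k : ((z : ℝ) ^ 2) ^ k ≤ X ^ ((1 - δ) * (1 + 2 * κ)) := by
    rw [← hy2k]
    gcongr
  have hzA : ((z : ℝ) ^ 2) ^ k ≤ X ^ (1 - δ + 2 * κ) := by
    refine hz2k.trans (Real.rpow_le_rpow_of_exponent_le hX1 ?_)
    nlinarith
  have hzB : ((z : ℝ) ^ 2) ^ k ≤ X := by
    refine hzA.trans ?_
    have := Real.rpow_le_rpow_of_exponent_le hX1 (show 1 - δ + 2 * κ ≤ 1 by linarith)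
    rwa [Real.rpow_one] at this
  have hs : ((1 - δ) / (2 * k)) ≤ c * (1 - κ) := by
    rw [div_le_iff₀ (by positivity)]
    refine le_trans ?_ hcκ
    nlinarith
  have hN0 : X ^ ((1 - δ) / (2 * k)) ≤ ((Qz z).card : ℝ) := by
    rw [hyκ] at hz
    exact (Real.rpow_le_rpow_of_exponent_le hX1 hs).trans hz
  have hN0p : 0 < ((Qz z).card : ℝ) := (Real.rpow_pos_of_pos hX0 _).trans_le hN0
  refine ⟨z, hz0N, hz5N, hzB, hzA, ?_, hN0p, ?_, ?_⟩
  · rw [div_pow, le_div_iff₀ (by positivity)]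
    have e1 : (X ^ (c * (1 - κ))) ^ (2 * k) ≤ ((z : ℝ) ^ 2) ^ k := by
      rw [← pow_mul]
      exact pow_le_pow_left₀ (by positivity) hzκ _
    have e2 : (X ^ (c * (1 - κ))) ^ (2 * k) = X ^ (c * (1 - κ) * (2 * k)) := by
      rw [← Real.rpow_natCast, ← Real.rpow_mul hX0.le]
      push_cast
      rfl
    rw [e2] at e1
    refine le_trans ?_ e1
    refine le_trans ?_ (Real.rpow_le_rpow_of_exponent_le hX1 hcκ)
    have e3 : (1 - δ) * (1 + κ / 2) = (1 - δ) + (1 - δ) * (κ / 2) := by ring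
    rw [e3, Real.rpow_add hX0]
    exact mul_le_mul_of_nonneg_left (hx3 X hXx3) (by positivity)
  · have e1 : 1 / ((Qz z).card : ℝ) ≤ X ^ (-((1 - δ) / (2 * k))) := by
      rw [Real.rpow_neg hX0.le, inv_eq_one_div]
      exact one_div_le_one_div_of_le (Real.rpow_pos_of_pos hX0 _) hN0
    calc (1 / ((Qz z).card : ℝ)) ^ r ≤ (X ^ (-((1 - δ) / (2 * k)))) ^ r :=
          pow_le_pow_left₀ (by positivity) e1 r
      _ = X ^ (-(r * (1 - δ) / (2 * k))) := by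
          rw [← Real.rpow_natCast, ← Real.rpow_mul hX0.le]
          congr 1
          ring
  · intro S hS
    -- the bad parameters are among those with a large sum of symbols
    have hlog : ∀ t ∈ S, 8 * Real.log |((f.eval t : ℤ) : ℝ)| ≤ (Qz z).card := by
      intro t ht
      obtain ⟨-, h2, h3⟩ := hS t ht
      refine le_trans ?_ hN0
      rw [← ha]
      have e1 : Real.log |((f.eval t : ℤ) : ℝ)| ≤ Real.log G + n * Real.log X := by
        have e2 : Real.log G + n * Real.log X = Real.log (G * X ^ (n : ℝ)) := by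
          rw [Real.log_mul (by linarith) (by positivity), Real.log_rpow hX0]
        rw [e2]
        apply Real.log_le_log _ h3
        rw [abs_pos]
        exact_mod_cast h2
      have e3 : Real.log X ≤ X ^ (a / 2) * (2 / a) := by
        have := Real.log_le_rpow_div hX0.le (show 0 < a / 2 by positivity)
        refine this.trans (le_of_eq ?_)
        field_simp
      have hXa : 1 ≤ X ^ (a / 2) := Real.one_le_rpow hX1 (by positivity)
      have e4 : X ^ a = X ^ (a / 2) * X ^ (a / 2) := by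
        rw [← Real.rpow_add hX0]
        congr 1
        ring
      have e5 := hx4 X hXx4
      have e6 : Real.log G ≤ X ^ (a / 2) * Real.log G := le_mul_of_one_le_left hlG hXa
      have e7 : n * Real.log X ≤ n * (X ^ (a / 2) * (2 / a)) := mul_le_mul_of_nonneg_left e3 hn0.le
      calc 8 * Real.log |((f.eval t : ℤ) : ℝ)| ≤ 8 * (X ^ (a / 2) * Real.log G +
            n * (X ^ (a / 2) * (2 / a))) := by linarith
        _ = (8 * (Real.log G + n * (2 / a))) * X ^ (a / 2) := by ring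
        _ ≤ X ^ (a / 2) * X ^ (a / 2) := by gcongr
        _ = X ^ a := e4.symm
    have hsub : S.filter (fun t => (((Qz z).filter (fun p => QR p (f.eval t))).card : ℝ) <
        (Qz z).card / 8) ⊆ S.filter (fun t => ((Qz z).card : ℝ) / 4 <
        |∑ p ∈ Qz z, (jacobiSym (f.eval t) p : ℝ)|) := by
      intro t ht
      rw [mem_filter] at ht ⊢
      refine ⟨ht.1, ?_⟩
      by_contra hcon
      rw [not_lt] at hcon
      have h1 := Pool.Agent.Y159.TQ.many_res (hS t ht.1).2.1 (Qz z) (fun p hp => (mem_Qz hp).1) hcon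
        (hlog t ht.1)
      have h2 : ((Qz z).filter (fun p => jacobiSym (f.eval t) p = 1)).card ≤
          ((Qz z).filter (fun p => QR p (f.eval t))).card := by
        apply card_le_card
        intro p hp
        rw [mem_filter] at hp ⊢
        obtain ⟨hpp, hp2, -⟩ := mem_Qz hp.1
        refine ⟨hp.1, (Pool.Agent.Y159.TQ.qr_of_js hpp ?_ hp.2).1⟩
        rintro rfl
        push_cast at hp2
        linarith
      have h3 : (((Qz z).filter (fun p => jacobiSym (f.eval t) p = 1)).card : ℝ) ≤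
          ((Qz z).filter (fun p => QR p (f.eval t))).card := by exact_mod_cast h2
      linarith [ht.2]
    have hcard : ((S.filter (fun t => (((Qz z).filter (fun p => QR p (f.eval t))).card : ℝ) <
        (Qz z).card / 8)).card : ℝ) ≤ ((S.filter (fun t => ((Qz z).card : ℝ) / 4 <
        |∑ p ∈ Qz z, (jacobiSym (f.eval t) p : ℝ)|)).card : ℝ) := by
      exact_mod_cast card_le_card hsub
    refine hcard.trans ?_
    have h1 := Pool.Agent.Y159.TQ.bad_window (N := X) (H := X) (M := y ^ (-((1 - κ) * (r : ℝ))))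
      (c := C4) (Y := y ^ (2 * r)) (by positivity) hC40.le hX1 _ hbad S
      (fun t ht => ⟨(hS t ht).1.1, by linarith [(hS t ht).1.2]⟩)
    refine h1.trans ?_
    have f1 : y ^ (-((1 - κ) * (r : ℝ))) ≤ X ^ (-(r * (1 - δ) / (2 * k))) := by
      rw [hy, ← Real.rpow_mul hX0.le]
      apply Real.rpow_le_rpow_of_exponent_le hX1
      have e1 : c * (-((1 - κ) * (r : ℝ))) = -(r * (c * (1 - κ))) := by ring
      have e2 : (r : ℝ) * (1 - δ) / (2 * k) = r * ((1 - δ) / (2 * k)) := by ring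
      rw [e1, e2]
      apply neg_le_neg
      exact mul_le_mul_of_nonneg_left hs (by linarith)
    have f2 : y ^ (2 * r) ≤ X ^ (1 - δ) := by
      rw [hy, ← Real.rpow_natCast, ← Real.rpow_mul hX0.le]
      apply Real.rpow_le_rpow_of_exponent_le hX1
      push_cast
      have e1 : c * (2 * (r : ℝ)) ≤ c * (4 / 3 * k) := mul_le_mul_of_nonneg_left (by linarith) hc0.le
      have e2 : c * (4 / 3 * (k : ℝ)) = 2 / 3 * ((1 - δ) * (1 + 2 * κ)) := by
        linarith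
      have e3 : 2 / 3 * ((1 - δ) * (1 + 2 * κ)) ≤ 1 - δ := by nlinarith
      linarith
    have f3 : 0 ≤ X ^ (1 - δ) := by positivity
    calc 2 * (C4 * (2 * X * y ^ (-((1 - κ) * (r : ℝ))) + y ^ (2 * r)))
        ≤ 2 * (C4 * (2 * X * X ^ (-(r * (1 - δ) / (2 * k))) + X ^ (1 - δ))) := by gcongr
      _ ≤ 4 * C4 * (X * X ^ (-(r * (1 - δ) / (2 * k))) + X ^ (1 - δ)) := by nlinarith [mul_nonneg hC40.le f3]

end Pool.Agent.U916.GP
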